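import Pool.Agent.Work.MP_a60482_kc.Api

/-!
# Betti cohomology with real coefficients, hyperplane sections, families

`Geometry D`: extra data on a Weil cohomology `D` with real coefficients.  The model: `V` is
the category of nonempty smooth proper complex schemes with all components of the same dimension,
`D.H X = H(X, ℝ)`, `D.C X i` is the real span of the classes of algebraic cycles of
codimension `i`.

`Geometry.IsPolarized`: Weil operators, hard Lefschetz theorem, Hodge-Riemann relations.
`Geometry.IsGeometric`: properties of families and of hyperplane sections.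
-/

open CategoryTheory MonoidalCategory CartesianMonoidalCategory

universe u v w b f

namespace Pool.VHC

open Pool.KC

/-- The morphism `i × i : Y × Y → X × X`. -/
def square {V : Type u} [Category.{v} V] [CartesianMonoidalCategory V] {X Y : V} (i : Y ⟶ X) :
    Y ⊗ Y ⟶ X ⊗ X := lift (fst Y Y ≫ i) (snd Y Y ≫ i)

/-- The data.  `weil X`: the Weil operator of `H(X, ℝ)` (multiplication by `i^(p-q)` on
`H^{p,q}`).  `Bund X`: the very ample line bundles on `X` (none if `X` is not projective), with
first Chern class `c M`; `pow M k` is `M^(k+1)`, and `box M N` is the external tensor product.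
`P k` is the projective space of dimension `k`, with `O1 k = O(1)`.  `rat X`: the rational
classes `H(X, ℚ)` in `H(X, ℝ)`.

`Fam`: smooth proper families over smooth connected varieties `S`; `Pt F`: the points of `S`;
`fib F s`: the fibres; `tot F`: a smooth proper compactification of the total space, and
`incl F s`: the inclusion of the fibre.  By the global invariant cycle theorem, the global
sections of the local system of the cohomology groups of the fibres are the restrictions of
the classes on `tot F`.

`univ M`, for `dim X ≥ 1`: the family of smooth members of the linear system of `M` (over the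
open subset of the projective space of sections of `M` with smooth zero locus of dimension
`dim X - 1`), with its map `ev M` to `X`. -/
structure Geometry {V : Type u} [Category.{v} V] [CartesianMonoidalCategory V]
    (D : WeilData.{u, v, w, 0} V ℝ) where
  weil : ∀ X : V, D.H X →ₗ[ℝ] D.H X
  Bund : V → Type b
  c : ∀ {X : V}, Bund X → D.H X
  pow : ∀ {X : V}, Bund X → ℕ → Bund X
  box : ∀ {X Y : V}, Bund X → Bund Y → Bund (X ⊗ Y)
  P : ℕ → V
  O1 : ∀ k : ℕ, Bund (P k)
  rat : ∀ X : V, AddSubgroup (D.H X)
  Fam : Type f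
  Pt : Fam → Type f
  fib : ∀ F : Fam, Pt F → V
  tot : Fam → V
  incl : ∀ (F : Fam) (s : Pt F), fib F s ⟶ tot F
  univ : ∀ {X : V}, Bund X → Fam
  ev : ∀ {X : V} (M : Bund X), tot (univ M) ⟶ X

namespace Geometry

variable {V : Type u} [Category.{v} V] [CartesianMonoidalCategory V]
variable {D : WeilData.{u, v, w, 0} V ℝ} (G : Geometry.{u, v, w, b, f} D)

/-- The action of the Weil operator of `X`. -/
noncomputable def J {X : V} (a : D.H X) : D.H X := G.weil X a

/-- The Weil operator preserves degrees, is an involution in even degrees, is multiplicative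
and compatible with pull-backs and traces, and fixes algebraic classes. -/
structure WeilOperatorAxioms : Prop where
  deg : ∀ (X : V) (i : ℕ), ∀ a ∈ D.deg X i, G.J a ∈ D.deg X i
  sq : ∀ (X : V) (i : ℕ), ∀ a ∈ D.deg X (2 * i), G.J (G.J a) = a
  mul : ∀ (X : V) (a e : D.H X), G.J (a * e) = G.J a * G.J e
  pull : ∀ (X Y : V) (g : X ⟶ Y) (a : D.H Y), G.J (D.pb g a) = D.pb g (G.J a)
  int : ∀ (X : V) (a : D.H X), D.int (G.J a) = D.int a
  alg : ∀ (X : V) (i : ℕ), ∀ a ∈ D.C X i, G.J a = a

/-- First Chern classes of line bundles; projective spaces. -/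
structure BundleAxioms : Prop where
  alg : ∀ (X : V) (M : G.Bund X), G.c M ∈ D.C X 1
  box : ∀ (X Y : V) (M : G.Bund X) (N : G.Bund Y),
    G.c (G.box M N) = D.pb (fst X Y) (G.c M) + D.pb (snd X Y) (G.c N)
  dim : ∀ k : ℕ, D.dim (G.P k) = k
  odd : ∀ k i : ℕ, ∀ a ∈ D.deg (G.P k) (2 * i + 1), a = 0
  int : ∀ k : ℕ, D.int (G.c (G.O1 k) ^ k) = 1

/-- The hard Lefschetz theorem (`inj`, `surj`, and `sl2`: the existence of the operator `Λ`
with `[L, Λ] = i - n` on `H^i`), and the Hodge-Riemann relations for primitive classes of even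
degree. -/
structure LefschetzAxioms : Prop where
  inj : ∀ (X : V) (M : G.Bund X) (i k : ℕ), i + k = D.dim X → ∀ a ∈ D.deg X i,
    G.c M ^ k * a = 0 → a = 0
  surj : ∀ (X : V) (M : G.Bund X) (i k : ℕ), i + k = D.dim X → ∀ a ∈ D.deg X (i + 2 * k),
    ∃ e ∈ D.deg X i, G.c M ^ k * e = a
  sl2 : ∀ (X : V) (M : G.Bund X), ∃ lam : D.H X →ₗ[ℝ] D.H X,
    (∀ i < 2, ∀ a ∈ D.deg X i, lam a = 0) ∧
    (∀ i : ℕ, ∀ a ∈ D.deg X (i + 2), lam a ∈ D.deg X i) ∧
    (∀ i : ℕ, ∀ a ∈ D.deg X i, G.c M * lam a - lam (G.c M * a) = ((i : ℝ) - D.dim X) • a)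
  hodge_riemann : ∀ (X : V) (M : G.Bund X) (i k : ℕ), 2 * i + k = D.dim X →
    ∀ a ∈ D.deg X (2 * i), a ≠ 0 → G.c M ^ (k + 1) * a = 0 →
      0 < (-1) ^ i * D.int (G.c M ^ k * (a * G.J a))

/-- Weil operators, hard Lefschetz, Hodge-Riemann. -/
structure IsPolarized : Prop where
  weilop : G.WeilOperatorAxioms
  bundle : G.BundleAxioms
  lefschetz : G.LefschetzAxioms

/-- Rational classes are stable under products and pull-backs, contain the `c M`, and a class
is rational if its image under the hard Lefschetz isomorphism is. -/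
structure RationalAxioms : Prop where
  mul : ∀ (X : V), ∀ a ∈ G.rat X, ∀ e ∈ G.rat X, a * e ∈ G.rat X
  pull : ∀ (X Y : V) (g : X ⟶ Y), ∀ a ∈ G.rat Y, D.pb g a ∈ G.rat X
  chern : ∀ (X : V) (M : G.Bund X), G.c M ∈ G.rat X
  hard : ∀ (X : V) (M : G.Bund X) (i k : ℕ), i + k = D.dim X → ∀ a ∈ D.deg X i,
    G.c M ^ k * a ∈ G.rat X → a ∈ G.rat X

/-- `flat`: a class on `tot F` which restricts to zero on one fibre restricts to zero on all
fibres.  `nondeg`: the intersection form of a fibre is nondegenerate on the restrictions of the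
classes on `tot F` (Deligne: semisimplicity of the monodromy).  `spread`: if all restrictions
of a rational class to the fibres are algebraic, then some algebraic class on `tot F` has the
same restrictions. -/
structure FamilyAxioms : Prop where
  flat : ∀ (F : G.Fam) (s t : G.Pt F) (a : D.H (G.tot F)),
    D.pb (G.incl F s) a = 0 → D.pb (G.incl F t) a = 0
  nondeg : ∀ (F : G.Fam) (s : G.Pt F) (a : D.H (G.tot F)),
    (∀ e : D.H (G.tot F), D.int (D.pb (G.incl F s) (a * e)) = 0) → D.pb (G.incl F s) a = 0
  spread : ∀ (F : G.Fam) (i : ℕ), ∀ a ∈ D.deg (G.tot F) (2 * i), a ∈ G.rat (G.tot F) →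
    (∀ s : G.Pt F, D.pb (G.incl F s) a ∈ D.C (G.fib F s) i) →
    ∃ e ∈ D.C (G.tot F) i, ∀ s : G.Pt F, D.pb (G.incl F s) e = D.pb (G.incl F s) a

/-- The smooth member of the linear system of `M` with parameter `s`. -/
def member {X : V} (M : G.Bund X) (s : G.Pt (G.univ M)) : V := G.fib (G.univ M) s

/-- The inclusion of a member of the linear system of `M` in `X`. -/
def emb {X : V} (M : G.Bund X) (s : G.Pt (G.univ M)) : G.member M s ⟶ X :=
  G.incl (G.univ M) s ≫ G.ev M

/-- The class `a` on `X` is the push-forward of the class `y` on the member `s` of the linear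
system of `M`. -/
def IsPush {X : V} (M : G.Bund X) (s : G.Pt (G.univ M)) (y : D.H (G.member M s)) (a : D.H X) :
    Prop := ∀ e : D.H X, D.int (e * a) = D.int (D.pb (G.emb M s) e * y)

/-- Smooth members `Y` of linear systems of very ample line bundles `M`, on `X` of dimension at
least one: dimension, class, weak Lefschetz theorem; `c (pow M k) = (k + 1) c M`; if
`dim X = 2 m`, the algebraic classes of codimension `m + 1` are combinations of push-forwards of
algebraic classes on smooth members `Y` of the linear systems of powers of `M` (Kleiman: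
smoothing of cycles of small dimension; Altman and Kleiman: smooth hypersurface sections
containing a smooth subvariety); `tot (univ M)` is a projective bundle over `X`. -/
structure HyperplaneAxioms : Prop where
  pow : ∀ (X : V) (M : G.Bund X) (k : ℕ), G.c (G.pow M k) = ((k : ℝ) + 1) • G.c M
  dim : ∀ (X : V) (M : G.Bund X) (s : G.Pt (G.univ M)), 1 ≤ D.dim X →
    D.dim (G.member M s) + 1 = D.dim X
  int : ∀ (X : V) (M : G.Bund X) (s : G.Pt (G.univ M)), 1 ≤ D.dim X → ∀ a : D.H X,
    D.int (D.pb (G.emb M s) a) = D.int (a * G.c M)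
  weak : ∀ (X : V) (M : G.Bund X) (s : G.Pt (G.univ M)), 1 ≤ D.dim X → ∀ i < D.dim X - 1,
    ∀ y ∈ D.deg (G.member M s) i, ∃ a ∈ D.deg X i, D.pb (G.emb M s) a = y
  moving : ∀ (X : V) (M : G.Bund X) (m : ℕ), 1 ≤ m → D.dim X = 2 * m →
    D.C X (m + 1) ≤ Submodule.span ℝ {a | a ∈ G.rat X ∧ ∃ (k : ℕ)
      (s : G.Pt (G.univ (G.pow M k))), ∃ y ∈ D.C (G.member (G.pow M k) s) m,
        G.IsPush (G.pow M k) s y a}
  bundle : ∀ (X : V) (M : G.Bund X), 1 ≤ D.dim X → ∀ i : ℕ, ∀ a ∈ D.C (G.tot (G.univ M)) i,
    ∃ e ∈ D.C X i, ∀ s : G.Pt (G.univ M), D.pb (G.incl (G.univ M) s) a = D.pb (G.emb M s) e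

/-- The embedding `i` of a smooth member `Y` of the linear system of a power of `M` is *very
general*: `M` restricts to a very ample line bundle on `Y`; there is a nonzero class `v` of
degree `dim Y` on `Y` orthogonal to the classes coming from `X`; and algebraic cycles on
`Y × Y` spread out (Voisin): if an algebraic class `z` of codimension `dim Y` on `Y × Y` is the
sum of the restriction of a class `g` on `X × X` and of a multiple of the class of the
diagonal, then this holds with an algebraic `g`. -/
structure VeryGeneral {X Y : V} (M : G.Bund X) (i : Y ⟶ X) : Prop where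
  chern : ∃ N : G.Bund Y, G.c N = D.pb i (G.c M)
  vanishing : ∃ v ∈ D.deg Y (D.dim Y), v ≠ 0 ∧ ∀ a : D.H X, D.int (v * D.pb i a) = 0
  spread : ∀ z ∈ D.C (Y ⊗ Y) (D.dim Y),
    (∃ g ∈ D.deg (X ⊗ X) (2 * D.dim Y), ∃ r : ℝ, z = D.pb (square i) g + r • D.diag Y) →
    ∃ g ∈ D.C (X ⊗ X) (D.dim Y), ∃ r : ℝ, z = D.pb (square i) g + r • D.diag Y

/-- If `X` has even dimension at least two, then the linear systems of some powers of `M` have
very general members. -/
def SectionAxiom : Prop := ∀ (X : V) (M : G.Bund X) (m : ℕ), 1 ≤ m → D.dim X = 2 * m →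
  ∃ (k : ℕ) (s : G.Pt (G.univ (G.pow M k))), G.VeryGeneral M (G.emb (G.pow M k) s)

/-- Every `X` is dominated birationally by a projective one (Chow, Hironaka). -/
def DominationAxiom : Prop :=
  ∀ X : V, ∃ (X' : V) (g : X' ⟶ X), Nonempty (G.Bund X') ∧ D.dim X' = D.dim X ∧
    ∀ a : D.H X, D.int (D.pb g a) = D.int a

/-- The properties of families and hyperplane sections. -/
structure IsGeometric : Prop where
  rational : G.RationalAxioms
  family : G.FamilyAxioms
  hyperplane : G.HyperplaneAxioms
  sections : G.SectionAxiom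
  domination : G.DominationAxiom

/-- **VHC for the family `F`**: a flat rational section which is algebraic at one point is
algebraic at every point. -/
def VHCFor (F : G.Fam) : Prop := ∀ i : ℕ, ∀ a ∈ D.deg (G.tot F) (2 * i), a ∈ G.rat (G.tot F) →
  ∀ s t : G.Pt F, D.pb (G.incl F s) a ∈ D.C (G.fib F s) i → D.pb (G.incl F t) a ∈ D.C (G.fib F t) i

/-- **VHC**: the variational Hodge conjecture for all families. -/
def VHC : Prop := ∀ F : G.Fam, G.VHCFor F

/-- the line bundle `O(1) ⊠ O(1) ⊠ M` on `P¹ × P¹ × X` -/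
def lines {X : V} (M : G.Bund X) : G.Bund (G.P 1 ⊗ (G.P 1 ⊗ X)) :=
  G.box (G.O1 1) (G.box (G.O1 1) M)

/-- the product line bundle on `(P¹ × P¹ × X) × (P¹ × P¹ × X)` -/
def ambient {X : V} (M : G.Bund X) :
    G.Bund ((G.P 1 ⊗ (G.P 1 ⊗ X)) ⊗ (G.P 1 ⊗ (G.P 1 ⊗ X))) := G.box (G.lines M) (G.lines M)

/-- **VHC for hyperplane sections**: VHC for the families of smooth members `Y` (of dimension
`2 m - 1`) of linear systems of very ample line bundles on `X` of even dimension `2 m`, and for
the sections given by the rational classes of degree `2 m` on `X`. -/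
def VHCHyperplane : Prop := ∀ (X : V) (M : G.Bund X) (m : ℕ), 1 ≤ m → D.dim X = 2 * m →
  ∀ a ∈ D.deg X (2 * m), a ∈ G.rat X → ∀ s t : G.Pt (G.univ M),
    D.pb (G.emb M s) a ∈ D.C (G.member M s) m → D.pb (G.emb M t) a ∈ D.C (G.member M t) m

/-- **Surjectivity above the middle**: for all `X` of even dimension `2 m`, multiplication by
`c M` maps the algebraic classes of codimension `m` onto those of codimension `m + 1`. -/
def MiddleSurjective : Prop := ∀ (X : V) (M : G.Bund X) (m : ℕ), D.dim X = 2 * m →
  ∀ a ∈ D.C X (m + 1), ∃ e ∈ D.C X m, G.c M * e = a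

/-- **The hard Lefschetz theorem for numerical equivalence classes of algebraic cycles**, for all
projective `X`: for `2 i + k = dim X`, every algebraic class `a` of codimension `i + k` is the
sum of `(c M)^k e`, for some algebraic class `e` of codimension `i`, and of a class which is
orthogonal to all algebraic classes of codimension `i`. -/
def NumericalLefschetz : Prop := ∀ (X : V) (M : G.Bund X) (i k : ℕ), 2 * i + k = D.dim X →
  ∀ a ∈ D.C X (i + k), ∃ e ∈ D.C X i, ∀ y ∈ D.C X i, D.int (y * (a - G.c M ^ k * e)) = 0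

/-- **The Lefschetz standard conjecture `B(X)`** for the polarization `M`: the operator `Λ`
with `[L, Λ] = i - n` on `H^i(X)`, `n = dim X`, is the action of an algebraic class. -/
def ConjB {X : V} (M : G.Bund X) : Prop :=
  ∃ z ∈ D.C (X ⊗ X) (D.dim X - 1), ∀ i : ℕ, ∀ a ∈ D.deg X i,
    G.c M * D.act z a - D.act z (G.c M * a) = ((i : ℝ) - D.dim X) • a

end Geometry

/-- **The sign conjecture** for `X`: the projector of `H(X)` onto the even part is the action
of an algebraic class. -/
def SignConj {V : Type u} [Category.{v} V] [CartesianMonoidalCategory V]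
    (D : WeilData.{u, v, w, 0} V ℝ) (X : V) : Prop :=
  ∃ z ∈ D.C (X ⊗ X) (D.dim X), (∀ i : ℕ, ∀ a ∈ D.deg X (2 * i), D.act z a = a) ∧
    ∀ i : ℕ, ∀ a ∈ D.deg X (2 * i + 1), D.act z a = 0

end Pool.VHC
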