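import Pool.Agent.Work.MP_298761_vhc.Ops

/-!
Numerical and homological equivalence: strictness of pull-backs.
-/

open CategoryTheory MonoidalCategory CartesianMonoidalCategory

universe u v w x

namespace Pool.VHC

open Pool.KC

/-- separation by a pairing which is nondegenerate on the left -/
theorem exists_separate {K H : Type*} [Field K] [AddCommGroup H] [Module K H]
    [FiniteDimensional K H] (φ : H →ₗ[K] H →ₗ[K] K) (A B S : Submodule K H)
    (hnd : ∀ a ∈ A, (∀ e ∈ B, φ a e = 0) → a = 0) (hS : S ≤ A) {y : H} (hy : y ∈ A)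
    (hyS : y ∉ S) : ∃ z ∈ B, (∀ s ∈ S, φ s z = 0) ∧ φ y z ≠ 0 := by
  let P : H →ₗ[K] Module.Dual K B := B.subtype.dualMap ∘ₗ φ
  have hP : ∀ a (e : B), P a e = φ a e := fun a e => rfl
  have hinj : ∀ a ∈ A, P a = 0 → a = 0 := by
    intro a ha h
    refine hnd a ha fun e he => ?_
    rw [← hP a ⟨e, he⟩, h, LinearMap.zero_apply]
  have hne : P y ∉ S.map P := by
    rintro ⟨s, hs, h⟩
    have h1 : y - s = 0 := by
      refine hinj _ (A.sub_mem hy (hS hs)) ?_
      rw [map_sub, h, sub_self]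
    exact hyS (by rw [sub_eq_zero.1 h1]; exact hs)
  obtain ⟨f, hf, hf'⟩ := Submodule.exists_dual_map_eq_bot_of_notMem hne inferInstance
  let z : B := (Module.evalEquiv K B).symm f
  have hz : ∀ g : Module.Dual K B, g z = f g := fun g =>
    Module.apply_evalEquiv_symm_apply K B g f
  refine ⟨z, z.2, fun s hs => ?_, ?_⟩
  · rw [← hP, hz]
    have h2 : f (P s) ∈ (S.map P).map f := ⟨P s, ⟨s, hs, rfl⟩, rfl⟩
    rw [hf'] at h2
    exact (Submodule.mem_bot K).1 h2
  · rw [← hP, hz]
    exact hf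

variable {V : Type u} [Category.{v} V] [CartesianMonoidalCategory V] {K : Type x} [Field K]

/-- numerical equivalence coincides with homological equivalence -/
def Num (T : WeilTheory.{u, v, w, x} V K) (X : V) : Prop :=
  ∀ i j, i + j = T.dim X → ∀ a ∈ T.C X i, (∀ e ∈ T.C X j, T.tr X (a * e) = 0) → a = 0

variable {T : WeilTheory.{u, v, w, x} V K}

/-- strictness of pull-backs -/
theorem strict {X Y : V} (hX : Num T X) (hY : Num T Y) (f : Y ⟶ X) {i : ℕ} {x : T.H X}
    (hx : x ∈ T.deg X (2 * i)) (h : T.pull f x ∈ T.C Y i) :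
    ∃ e ∈ T.C X i, T.pull f e = T.pull f x := by
  by_cases hiY : T.dim Y < i
  · refine ⟨0, Submodule.zero_mem _, ?_⟩
    rw [map_zero, T.C_eq_zero h hiY]
  by_cases hiX : T.dim X < i
  · refine ⟨0, Submodule.zero_mem _, ?_⟩
    rw [T.deg_eq_zero hx (by omega), map_zero]
  by_contra hcon
  push Not at hcon
  obtain ⟨z, hz, hz1, hz2⟩ := exists_separate
    (LinearMap.compr₂ (LinearMap.mul K (T.H Y)) (T.tr Y)) (T.C Y i) (T.C Y (T.dim Y - i))
    ((T.C X i).map (T.pull f).toLinearMap)
    (fun a ha hh => hY i (T.dim Y - i) (by omega) a ha hh)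
    (by
      rintro _ ⟨e, he, rfl⟩
      exact T.C_pull f he) h
    (by
      rintro ⟨e, he, h1⟩
      exact hcon e he h1)
  have hzd : z ∈ T.deg Y (2 * (T.dim Y - i)) := T.C_deg _ _ hz
  have hw : T.gys f z ∈ T.C X (T.dim X - i) := T.gys_mem f hz (by omega)
  have h1 : T.gys f z = 0 := by
    refine hX (T.dim X - i) i (by omega) _ hw fun e he => ?_
    rw [T.tr_gys f hzd, T.tr_even_comm hzd]
    exact hz1 _ ⟨e, he, rfl⟩
  apply hz2
  have h2 := T.tr_gys f hzd x
  rw [h1, zero_mul, map_zero, T.tr_even_comm hzd] at h2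
  exact h2.symm

/-- numerical equivalence along a morphism of degree one -/
theorem num_dom {X X' : V} (s : X' ⟶ X) (hd : T.dim X' = T.dim X)
    (ht : ∀ a, T.tr X' (T.pull s a) = T.tr X a) (h : Num T X') : Num T X := by
  intro i j hij a ha hh
  have h1 : T.pull s a = 0 := by
    refine h i j (by omega) _ (T.C_pull s ha) fun e he => ?_
    have hed : e ∈ T.deg X' (2 * j) := T.C_deg _ _ he
    have had : a ∈ T.deg X (2 * i) := T.C_deg _ _ ha
    rw [← T.tr_even_comm hed, ← T.tr_gys s hed, ← T.tr_even_comm had]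
    exact hh _ (T.gys_mem s he (by omega))
  apply T.nondeg
  intro b
  rw [← ht, map_mul, h1, mul_zero, map_zero]

end Pool.VHC
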