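import Pool.Agent.Work.MP_298761_vhc.Lef
import Pool.Agent.Work.MP_298761_vhc.Strict

/-!
Consequences of the Lefschetz standard conjecture: the sign conjecture, hard Lefschetz for
algebraic classes, homological = numerical equivalence.
-/

open CategoryTheory MonoidalCategory CartesianMonoidalCategory Polynomial

universe u v w b

namespace Pool.VHC

open Pool.KC

variable {V : Type u} [Category.{v} V] [CartesianMonoidalCategory V]
variable {T : WeilTheory.{u, v, w, 0} V ℝ} (G : Pol.{u, v, w, b} T)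

namespace Pol

theorem sign_of_lef {X : V} (M : G.Bund X) (h : G.Lef M) : Sign T X := by
  obtain ⟨z, hz, hcomm⟩ := h
  rcases Nat.eq_zero_or_pos (T.dim X) with h0 | h0
  · refine ⟨T.diag X, T.C_diag X, ?_, ?_⟩
    · intro i a _
      rw [T.act_diag, LinearMap.id_apply]
    · intro i a ha
      rw [T.deg_eq_zero ha (by omega), map_zero]
  · set H : Module.End ℝ (T.H X) :=
      T.act (T.pull (snd X X) (G.c M) * z - T.pull (fst X X) (G.c M) * z) with hH
    have hHo : H ∈ T.ops X := by
      refine ⟨_, ?_, rfl⟩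
      exact sub_mem (T.C_of_eq (T.C_mul (T.C_pull _ (G.c_mem M)) hz) (by omega))
        (T.C_of_eq (T.C_mul (T.C_pull _ (G.c_mem M)) hz) (by omega))
    have hHa : ∀ (i : ℕ), ∀ a ∈ T.deg X i, H a = ((i : ℝ) - T.dim X) • a := by
      intro i a ha
      rw [← hcomm i a ha, hH, sub_eq_add_neg, T.act_add,
        ← neg_one_smul ℝ (T.pull (fst X X) (G.c M) * z), T.act_smul, LinearMap.add_apply,
        LinearMap.smul_apply, T.act_snd_mul (G.c_deg M), T.act_fst_mul, G.c_comm M a]
      module
    let s := Finset.range (2 * T.dim X + 1)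
    let v : ℕ → ℝ := fun i => (i : ℝ) - T.dim X
    let r : ℕ → ℝ := fun i => if Even i then 1 else 0
    have hv : Set.InjOn v s := by
      intro i _ j _ hij
      have : (i : ℝ) - T.dim X = (j : ℝ) - T.dim X := hij
      have h2 : (i : ℝ) = j := by linarith
      exact_mod_cast h2
    have hf : ∀ i ∈ s, (Lagrange.interpolate s v r).eval (v i) = r i := fun i hi =>
      Lagrange.eval_interpolate_at_node r hv hi
    obtain ⟨y, hy, hyf⟩ := aeval_mem_ops hHo (Lagrange.interpolate s v r)
    have hact : ∀ (i : ℕ), ∀ a ∈ T.deg X i, ∀ q : ℝ[X], aeval H q a = q.eval (v i) • a := by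
      intro i a ha q
      induction q using Polynomial.induction_on' with
      | add p q hp hq => rw [map_add, LinearMap.add_apply, hp, hq, eval_add, add_smul]
      | monomial n c =>
        rw [aeval_monomial, Module.End.mul_apply, Module.algebraMap_end_apply, eval_monomial,
          mul_smul]
        congr 1
        induction n with
        | zero => simp
        | succ n ih =>
          rw [pow_succ', Module.End.mul_apply, ih, map_smul, hHa i a ha, smul_smul, pow_succ]
    refine ⟨y, hy, ?_, ?_⟩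
    · intro i a ha
      rw [hyf, hact _ a ha]
      by_cases hi : 2 * i ∈ s
      · rw [hf _ hi]
        simp [r]
      · rw [T.deg_eq_zero ha, smul_zero]
        simp only [s, Finset.mem_range] at hi
        omega
    · intro i a ha
      rw [hyf, hact _ a ha]
      by_cases hi : 2 * i + 1 ∈ s
      · rw [hf _ hi]
        simp [r]
      · rw [T.deg_eq_zero ha, smul_zero]
        simp only [s, Finset.mem_range] at hi
        omega

theorem hla_step {X : V} {M : G.Bund X} {z : T.H (X ⊗ X)}
    (hz : z ∈ T.C (X ⊗ X) (T.dim X - 1))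
    (hcomm : ∀ (i : ℕ), ∀ a ∈ T.deg X i,
      G.c M * T.act z a - T.act z (G.c M * a) = ((i : ℝ) - T.dim X) • a)
    {k : ℕ} (hk : 0 < k) {i : ℕ} (hik : 2 * i + k = T.dim X) {a : T.H X}
    (ha : a ∈ T.C X (i + k)) (hLa : G.c M * a = 0) : ∃ e ∈ T.C X i, G.c M ^ k * e = a := by
  let l : ℕ → T.H X := fun j => (T.act z)^[j] a
  have hl : ∀ j, l (j + 1) = T.act z (l j) := fun j => Function.iterate_succ_apply' _ _ _
  have h1 : ∀ j ≤ k, l j ∈ T.C X (i + k - j) := by
    intro j
    induction j with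
    | zero => intro _; exact ha
    | succ j ih =>
      intro hj
      rw [hl]
      exact T.act_mem hz (ih (by omega)) (by omega)
  have h2 : ∀ j < k, G.c M * l (j + 1) = (((j : ℝ) + 1) * ((k : ℝ) - j)) • l j := by
    intro j
    induction j with
    | zero =>
      intro hj
      have h3 := hcomm _ _ (T.C_deg _ _ (h1 0 (by omega)))
      have h4 : G.c M * l 0 = 0 := hLa
      rw [h4, map_zero, sub_zero, ← hl] at h3
      rw [h3]
      congr 1
      have : (T.dim X : ℝ) = 2 * i + k := by exact_mod_cast hik.symm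
      rw [this, Nat.sub_zero]
      push_cast
      ring
    | succ j ih =>
      intro hj
      have h3 := hcomm _ _ (T.C_deg _ _ (h1 (j + 1) (by omega)))
      rw [ih (by omega), map_smul, ← hl, ← hl] at h3
      rw [eq_add_of_sub_eq h3, ← add_smul]
      congr 1
      have h5 : (T.dim X : ℝ) = 2 * i + k := by exact_mod_cast hik.symm
      have h6 : ((2 * (i + k - (j + 1)) : ℕ) : ℝ) = 2 * ((i : ℝ) + k - (j + 1)) := by
        rw [Nat.cast_mul, Nat.cast_sub (by omega)]
        push_cast
        ring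
      rw [h5, h6]
      push_cast
      ring
  have h3 : ∀ j ≤ k, ∃ c : ℝ, c ≠ 0 ∧ G.c M ^ j * l j = c • a := by
    intro j
    induction j with
    | zero => intro _; exact ⟨1, one_ne_zero, by simp [l]⟩
    | succ j ih =>
      intro hj
      obtain ⟨c, hc, h4⟩ := ih (by omega)
      refine ⟨(((j : ℝ) + 1) * ((k : ℝ) - j)) * c, ?_, ?_⟩
      · have h5 : (j : ℝ) < k := by exact_mod_cast hj
        have h6 : (0 : ℝ) < k - j := by linarith
        have h7 : (0 : ℝ) < (j : ℝ) + 1 := by positivity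
        exact mul_ne_zero (mul_pos h7 h6).ne' hc
      · rw [pow_succ, mul_assoc, h2 j (by omega), mul_smul_comm, h4, smul_smul]
  obtain ⟨c, hc, h4⟩ := h3 k le_rfl
  refine ⟨c⁻¹ • l k, Submodule.smul_mem _ _ (T.C_of_eq (h1 k le_rfl) (by omega)), ?_⟩
  rw [mul_smul_comm, h4, smul_smul, inv_mul_cancel₀ hc, one_smul]

theorem hla_of_lef {X : V} (M : G.Bund X) (h : G.Lef M) : G.HLA M := by
  obtain ⟨z, hz, hcomm⟩ := h
  intro i
  induction i with
  | zero =>
    intro k hik a ha
    -- top degree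
    rcases Nat.eq_zero_or_pos k with hk | hk
    · subst hk
      exact ⟨a, ha, by rw [pow_zero, one_mul]⟩
    · obtain ⟨e, he, hea⟩ := G.hla_step hz hcomm hk (i := 0) hik (a := a) ha (by
        rw [T.C_eq_zero (T.C_mul (G.c_mem M) ha) (by omega)])
      exact ⟨e, he, hea⟩
  | succ i ih =>
    intro k hik a ha
    rcases Nat.eq_zero_or_pos k with hk | hk
    · subst hk
      exact ⟨a, ha, by rw [pow_zero, one_mul]⟩
    · obtain ⟨d, hd, hda⟩ := ih (k + 2) (by omega) (G.c M * a)
        (T.C_of_eq (T.C_mul (G.c_mem M) ha) (by omega))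
      obtain ⟨e, he, hea⟩ := G.hla_step hz hcomm hk (i := i + 1) hik (a := a - G.c M ^ (k + 1) * d)
        (sub_mem ha (T.C_of_eq (T.C_mul (G.c_pow_mem M (k + 1)) hd) (by omega))) (by
          rw [mul_sub, ← mul_assoc, ← pow_succ', hda, sub_self])
      refine ⟨e + G.c M * d, add_mem he (T.C_of_eq (T.C_mul (G.c_mem M) hd) (by omega)), ?_⟩
      rw [mul_add, hea, ← mul_assoc, ← pow_succ]
      abel

theorem num_aux {X : V} (M : G.Bund X) (hA : G.HLA M) : ∀ (i k : ℕ), 2 * i + k = T.dim X →
    ∀ a ∈ T.C X i, ∃ e ∈ T.C X i, 0 ≤ T.tr X (G.c M ^ k * (a * e)) ∧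
      (T.tr X (G.c M ^ k * (a * e)) = 0 → a = 0) := by
  intro i
  -- a primitive class
  have hprim : ∀ (i k : ℕ), 2 * i + k = T.dim X → ∀ a ∈ T.C X i, G.c M ^ (k + 1) * a = 0 →
      0 ≤ (-1) ^ i * T.tr X (G.c M ^ k * (a * a)) ∧
      ((-1) ^ i * T.tr X (G.c M ^ k * (a * a)) = 0 → a = 0) := by
    intro i k hik a ha h
    by_cases h0 : a = 0
    · subst h0
      simp
    · have h1 := G.hodge_riemann M hik a (T.C_deg _ _ ha) h0 h
      rw [G.weil_alg ha] at h1
      exact ⟨h1.le, fun h2 => absurd h2 h1.ne'⟩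
  induction i with
  | zero =>
    intro k hik a ha
    have h1 : G.c M ^ (k + 1) * a = 0 :=
      T.C_eq_zero (T.C_mul (G.c_pow_mem M (k + 1)) ha) (by omega)
    have h2 := hprim 0 k hik a ha h1
    rw [pow_zero, one_mul] at h2
    exact ⟨a, ha, h2⟩
  | succ i ih =>
    intro k hik a ha
    obtain ⟨d, hd, hda⟩ := hA i (k + 2) (by omega) (G.c M ^ (k + 1) * a)
      (T.C_of_eq (T.C_mul (G.c_pow_mem M (k + 1)) ha) (by omega))
    obtain ⟨e, he, he1, he2⟩ := ih (k + 2) (by omega) d hd
    obtain ⟨a0, ha0⟩ : ∃ a0, a0 = a - G.c M * d := ⟨_, rfl⟩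
    have haa : a = a0 + G.c M * d := by rw [ha0]; abel
    have ha0C : a0 ∈ T.C X (i + 1) := by
      rw [ha0]
      exact sub_mem ha (T.C_of_eq (T.C_mul (G.c_mem M) hd) (by omega))
    have ha0p : G.c M ^ (k + 1) * a0 = 0 := by
      rw [ha0, mul_sub, ← mul_assoc, ← pow_succ, hda, sub_self]
    have hp := hprim (i + 1) k (by omega) a0 ha0C ha0p
    set s : ℝ := (-1) ^ (i + 1) with hs
    refine ⟨s • a0 + G.c M * e, add_mem (Submodule.smul_mem _ _ ha0C)
      (T.C_of_eq (T.C_mul (G.c_mem M) he) (by omega)), ?_⟩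
    have hval : T.tr X (G.c M ^ k * (a * (s • a0 + G.c M * e))) =
        s * T.tr X (G.c M ^ k * (a0 * a0)) + T.tr X (G.c M ^ (k + 2) * (d * e)) := by
      have e1 : G.c M ^ k * (a0 * (G.c M * e)) = 0 := by
        have : G.c M ^ k * (a0 * (G.c M * e)) = (G.c M ^ (k + 1) * a0) * e := by
          rw [← mul_assoc a0, ← G.c_comm M a0, pow_succ]
          simp only [mul_assoc]
        rw [this, ha0p, zero_mul]
      have e2 : G.c M ^ k * (G.c M * d * a0) = 0 := by
        have : G.c M ^ k * (G.c M * d * a0) = (G.c M ^ (k + 1) * a0) * d := by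
          rw [mul_assoc (G.c M) d, T.even_comm (T.C_deg _ _ hd) a0, pow_succ]
          simp only [mul_assoc]
        rw [this, ha0p, zero_mul]
      have e3 : G.c M ^ k * (G.c M * d * (G.c M * e)) = G.c M ^ (k + 2) * (d * e) := by
        rw [mul_assoc (G.c M) d, ← mul_assoc d, ← G.c_comm M d, pow_succ, pow_succ]
        simp only [mul_assoc]
      rw [haa]
      simp only [add_mul, mul_add, mul_smul_comm, e1, e2, e3, map_add, map_smul, map_zero,
        smul_zero, smul_eq_mul, add_zero, zero_add]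
    rw [hval]
    refine ⟨add_nonneg hp.1 he1, fun h0 => ?_⟩
    have h1 : s * T.tr X (G.c M ^ k * (a0 * a0)) = 0 := by linarith [hp.1, he1]
    have h2 : T.tr X (G.c M ^ (k + 2) * (d * e)) = 0 := by linarith [hp.1, he1]
    rw [haa, hp.2 h1, he2 h2, mul_zero, add_zero]

theorem num_of_hla {X : V} (M : G.Bund X) (hA : G.HLA M) : Num T X := by
  intro i j hij a ha h
  rcases Nat.lt_or_ge (T.dim X) (2 * i) with h1 | h1
  · obtain ⟨e, he, hea⟩ := hA j (2 * i - T.dim X) (by omega) a (T.C_of_eq ha (by omega))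
    obtain ⟨d, hd, _, hd2⟩ := G.num_aux M hA j (2 * i - T.dim X) (by omega) e he
    rw [← hea, hd2 (by rw [← mul_assoc, hea]; exact h d hd), mul_zero]
  · obtain ⟨d, hd, _, hd2⟩ := G.num_aux M hA i (T.dim X - 2 * i) (by omega) a ha
    apply hd2
    rw [← mul_assoc, G.c_pow_comm, mul_assoc]
    exact h _ (T.C_of_eq (T.C_mul (G.c_pow_mem M _) hd) (by omega))

end Pol

end Pool.VHC
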