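import Pool.Agent.Work.MP_298761_vhc.H

/-!
Surjectivity above the middle implies the hard Lefschetz theorem modulo numerical equivalence.
-/

open CategoryTheory MonoidalCategory CartesianMonoidalCategory

universe u v w b

namespace Pool.VHC

open Pool.KC

variable {V : Type u} [Category.{v} V] [CartesianMonoidalCategory V]
variable {T : WeilTheory.{u, v, w, 0} V ℝ}

namespace Pol

variable (G : Pol.{u, v, w, b} T)

/-- if `l^k x` is numerically trivial, then the classes `l^α x × l^β x` are orthogonal to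
the algebraic classes, `α + β = 2 k - 1` -/
theorem num_pair {X : V} (M : G.Bund X) {i k : ℕ} (hk : 1 ≤ k) (hik : 2 * i + k = T.dim X)
    {x : T.H X} (hx : x ∈ T.C X i) (h0 : ∀ y ∈ T.C X i, T.tr X (y * (G.c M ^ k * x)) = 0)
    {z : T.H (X ⊗ X)} (hz : z ∈ T.C (X ⊗ X) (2 * i + 1)) {α β : ℕ} (hab : 2 * k - 1 ≤ α + β) :
    T.tr (X ⊗ X) (T.pull (fst X X) (G.c M ^ α * x) * T.pull (snd X X) (G.c M ^ β * x) * z) = 0 := by
  have hmem : ∀ α, G.c M ^ α * x ∈ T.C X (i + α) := fun α =>
    T.C_of_eq (T.C_mul (G.c_pow_mem M α) hx) (by omega)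
  rcases Nat.lt_or_ge (2 * k - 1) (α + β) with hlt | hge
  · apply T.tr_deg (T.mul_deg (T.mul_deg (T.pull_deg _ (T.C_deg _ _ (hmem α)))
      (T.pull_deg _ (T.C_deg _ _ (hmem β)))) (T.C_deg _ _ hz))
    rw [T.dim_prod]
    omega
  have hab' : α + β = 2 * k - 1 := by omega
  -- the case `β ≥ k`
  have key : ∀ {w : T.H (X ⊗ X)}, w ∈ T.C (X ⊗ X) (2 * i + 1) → ∀ {α β : ℕ},
      α + β = 2 * k - 1 → k ≤ β →
      T.tr X (T.act w (G.c M ^ α * x) * (G.c M ^ β * x)) = 0 := by
    intro w hw α β hab hβ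
    rcases Nat.lt_or_ge (T.dim X) (i + β) with h1 | h1
    · rw [T.C_eq_zero (hmem β) h1, mul_zero, map_zero]
    · have h2 : T.act w (G.c M ^ α * x) ∈ T.C X (i + α + 1 - k) :=
        T.act_mem hw (hmem α) (by omega)
      have h3 : G.c M ^ β * x = G.c M ^ (β - k) * (G.c M ^ k * x) := by
        rw [← mul_assoc, ← pow_add, Nat.sub_add_cancel hβ]
      rw [h3, ← mul_assoc]
      apply h0
      exact T.C_of_eq (T.C_mul h2 (G.c_pow_mem M (β - k))) (by omega)
  have hcomm : T.pull (fst X X) (G.c M ^ α * x) * T.pull (snd X X) (G.c M ^ β * x) * z =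
      T.pull (fst X X) (G.c M ^ α * x) * z * T.pull (snd X X) (G.c M ^ β * x) := by
    rw [mul_assoc, ← T.even_comm (T.C_deg _ _ hz), ← mul_assoc]
  rw [hcomm, ← T.tr_act]
  rcases Nat.lt_or_ge β k with h1 | h1
  · rw [T.tr_act_sw z (T.C_deg _ _ (hmem α)) (T.C_deg _ _ (hmem β))]
    exact key (T.C_pull _ hz) (by omega) (by omega)
  · exact key hz hab' h1

/-- injectivity -/
theorem num_inj (hyp : G.Div) {X : V} (M : G.Bund X) {i k : ℕ} (hik : 2 * i + k = T.dim X)
    {x : T.H X} (hx : x ∈ T.C X i) (h0 : ∀ y ∈ T.C X i, T.tr X (y * (G.c M ^ k * x)) = 0)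
    {a : T.H X} (ha : a ∈ T.C X (i + k)) : T.tr X (x * a) = 0 := by
  rcases Nat.eq_zero_or_pos k with hk | hk
  · subst hk
    have h1 := h0 a ha
    rw [pow_zero, one_mul] at h1
    rw [T.tr_even_comm (T.C_deg _ _ hx), h1]
  set L := G.c (G.box M M) with hL
  obtain ⟨z, hz, h⟩ := G.onto_two hyp (G.box M M) (i := 2 * i + 1) (k := 2 * k - 2)
    (a := T.pull (fst X X) a * T.pull (snd X X) a) (by rw [T.dim_prod]; omega)
    (T.C_of_eq (T.C_mul (T.C_pull _ ha) (T.C_pull _ ha)) (by omega))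
  rw [show 2 * k - 2 + 1 = 2 * k - 1 by omega, ← hL] at h
  -- induction on the power of `L`
  have hstep : ∀ r α β : ℕ, 2 * k - 1 ≤ α + β + r →
      T.tr (X ⊗ X) (T.pull (fst X X) (G.c M ^ α * x) * T.pull (snd X X) (G.c M ^ β * x) *
        (L ^ r * z)) = 0 := by
    intro r
    induction r with
    | zero =>
      intro α β hab
      rw [pow_zero, one_mul]
      exact G.num_pair M hk hik hx h0 hz (by omega)
    | succ r ih =>
      intro α β hab
      have e1 : T.pull (fst X X) (G.c M ^ α * x) * T.pull (snd X X) (G.c M ^ β * x) *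
          (L ^ (r + 1) * z) =
          T.pull (fst X X) (G.c M ^ (α + 1) * x) * T.pull (snd X X) (G.c M ^ β * x) *
            (L ^ r * z) +
          T.pull (fst X X) (G.c M ^ α * x) * T.pull (snd X X) (G.c M ^ (β + 1) * x) *
            (L ^ r * z) := by
        have e2 : L ^ (r + 1) * z = L * (L ^ r * z) := by rw [pow_succ', mul_assoc]
        have e3 : T.pull (fst X X) (G.c M ^ α * x) * T.pull (snd X X) (G.c M ^ β * x) * L =
            T.pull (fst X X) (G.c M ^ (α + 1) * x) * T.pull (snd X X) (G.c M ^ β * x) +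
            T.pull (fst X X) (G.c M ^ α * x) * T.pull (snd X X) (G.c M ^ (β + 1) * x) := by
          rw [hL, G.c_box, mul_add]
          congr 1
          · rw [pow_succ', mul_assoc (G.c M), map_mul (T.pull (fst X X)) (G.c M),
              mul_assoc, ← T.even_comm (T.fst_deg (Y := X) (G.c_deg M)), ← mul_assoc,
              T.even_comm (T.fst_deg (Y := X) (G.c_deg M))]
          · rw [pow_succ', mul_assoc (G.c M), map_mul (T.pull (snd X X)) (G.c M), mul_assoc,
              T.even_comm (T.snd_deg (X := X) (G.c_deg M))]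
        rw [e2, ← mul_assoc, e3, add_mul]
      rw [e1, map_add, ih (α + 1) β (by omega), ih α (β + 1) (by omega), add_zero]
  have h2 := hstep (2 * k - 1) 0 0 (by omega)
  rw [pow_zero, one_mul, h] at h2
  have h3 : T.pull (fst X X) x * T.pull (snd X X) x *
      (T.pull (fst X X) a * T.pull (snd X X) a) =
      T.pull (fst X X) (x * a) * T.pull (snd X X) (x * a) := by
    have h4 : T.pull (snd X X) x * T.pull (fst X X) a = T.pull (fst X X) a * T.pull (snd X X) x :=
      T.even_comm (T.snd_deg (X := X) (T.C_deg _ _ hx)) _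
    rw [map_mul, map_mul, mul_assoc, ← mul_assoc (T.pull (snd X X) x), h4]
    simp only [mul_assoc]
  rw [h3, T.tr_prod] at h2
  exact mul_self_eq_zero.mp h2

/-- the hard Lefschetz theorem modulo numerical equivalence -/
def NumLef : Prop := ∀ {X : V} (M : G.Bund X) {i k : ℕ}, 2 * i + k = T.dim X →
  ∀ a ∈ T.C X (i + k), ∃ e ∈ T.C X i, ∀ y ∈ T.C X i, T.tr X (y * (a - G.c M ^ k * e)) = 0

theorem numLef (hyp : G.Div) : G.NumLef := by
  intro X M i k hik a ha
  -- the form `(e, y) ↦ tr (y l^k e)` on `C X i`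
  let Φ : T.C X i →ₗ[ℝ] Module.Dual ℝ (T.C X i) :=
    { toFun := fun e => (T.tr X ∘ₗ LinearMap.mulRight ℝ (G.c M ^ k * (e : T.H X))) ∘ₗ
        (T.C X i).subtype
      map_add' := by
        intro e e'
        apply LinearMap.ext
        intro y
        change T.tr X ((y : T.H X) * (G.c M ^ k * ((e : T.H X) + e'))) =
          T.tr X ((y : T.H X) * (G.c M ^ k * e)) + T.tr X ((y : T.H X) * (G.c M ^ k * e'))
        rw [mul_add, mul_add, map_add]
      map_smul' := by
        intro r e
        apply LinearMap.ext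
        intro y
        change T.tr X ((y : T.H X) * (G.c M ^ k * (r • (e : T.H X)))) =
          r • T.tr X ((y : T.H X) * (G.c M ^ k * e))
        rw [mul_smul_comm, mul_smul_comm, map_smul] }
  let ψ : Module.Dual ℝ (T.C X i) := (T.tr X ∘ₗ LinearMap.mulRight ℝ a) ∘ₗ (T.C X i).subtype
  have hΦ : ∀ e y : T.C X i, Φ e y = T.tr X ((y : T.H X) * (G.c M ^ k * e)) := fun e y => rfl
  have hψ : ∀ y : T.C X i, ψ y = T.tr X ((y : T.H X) * a) := fun y => rfl
  have hsymm : ∀ e y : T.C X i, Φ e y = Φ y e := by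
    intro e y
    rw [hΦ, hΦ, ← mul_assoc, ← G.c_pow_comm, mul_assoc, T.even_comm (T.C_deg _ _ y.2),
      ← mul_assoc, G.c_pow_comm, mul_assoc]
  have hmem : ψ ∈ LinearMap.range Φ := by
    have h1 : LinearMap.range Φ = (LinearMap.ker Φ).dualAnnihilator := by
      rw [← LinearMap.range_dualMap_eq_dualAnnihilator_ker]
      have h2 : Φ.dualMap ∘ₗ (Module.evalEquiv ℝ (T.C X i)).toLinearMap = Φ := by
        apply LinearMap.ext
        intro e
        apply LinearMap.ext
        intro y
        exact hsymm y e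
      conv_lhs => rw [← h2]
      rw [LinearMap.range_comp, LinearEquiv.range, Submodule.map_top]
    rw [h1, Submodule.mem_dualAnnihilator]
    intro x hx
    rw [hψ]
    apply G.num_inj hyp M hik x.2 _ ha
    intro y hy
    rw [LinearMap.mem_ker] at hx
    have := congrArg (fun f : Module.Dual ℝ (T.C X i) => f ⟨y, hy⟩) hx
    exact this
  obtain ⟨e, he⟩ := hmem
  refine ⟨e, e.2, fun y hy => ?_⟩
  have := congrArg (fun f : Module.Dual ℝ (T.C X i) => f ⟨y, hy⟩) he
  rw [mul_sub, map_sub, sub_eq_zero]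
  exact this.symm

end Pol

end Pool.VHC
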