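import Pool.Agent.Work.MP_298761_vhc.Geo

/-!
VHC for hyperplane sections implies: algebraic classes of small dimension are divisible by
the hyperplane class.
-/

open CategoryTheory MonoidalCategory CartesianMonoidalCategory

universe u v w b f

namespace Pool.VHC

open Pool.KC

variable {V : Type u} [Category.{v} V] [CartesianMonoidalCategory V]
variable {T : WeilTheory.{u, v, w, 0} V ℝ}

namespace Pol

variable (G : Pol.{u, v, w, b} T)

theorem c_deg {X : V} (M : G.Bund X) : G.c M ∈ T.deg X (2 * 1) := T.C_deg _ _ (G.c_mem M)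

theorem c_comm {X : V} (M : G.Bund X) (a : T.H X) : G.c M * a = a * G.c M :=
  T.even_comm (G.c_deg M) a

theorem c_pow_mem {X : V} (M : G.Bund X) (k : ℕ) : G.c M ^ k ∈ T.C X k := T.C_pow (G.c_mem M) k

theorem c_pow_comm {X : V} (M : G.Bund X) (k : ℕ) (a : T.H X) : G.c M ^ k * a = a * G.c M ^ k :=
  T.even_comm (T.C_deg _ _ (G.c_pow_mem M k)) a

end Pol

namespace Geo

variable (G : Geo.{u, v, w, b, f} T)

theorem Q1.hyp {G : Geo.{u, v, w, b, f} T} (h : G.Q1) : G.Q1hyp := by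
  intro X M m _ _ a ha har s t hs
  unfold Geo.inc at hs ⊢
  rw [T.pull_comp] at hs ⊢
  exact h (G.univ M) m _ (T.pull_deg _ ha) (G.rat_pull _ har) s t hs

theorem divide_aux (hyp : G.Q1hyp) {X : V} (M N : G.Bund X) {r : ℝ} (hr : r ≠ 0)
    (hN : G.c N = r • G.c M) {i : ℕ} (hi1 : 1 ≤ i)
    (hi : T.dim X = 2 * i) (s : G.Pt (G.univ N)) {y : T.H (G.fib (G.univ N) s)}
    (hy : y ∈ T.C (G.fib (G.univ N) s) i) {a : T.H X} (har : a ∈ G.rat X)
    (h : ∀ e : T.H X, T.tr X (e * a) = T.tr _ (T.pull (G.inc N s) e * y)) :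
    ∃ e ∈ T.C X i, G.c M * e = a := by
  have hX : 1 ≤ T.dim X := by omega
  have hdY := G.hyp_dim N s hX
  have htr := G.hyp_tr N s hX
  change ∀ e : T.H X, T.tr _ (T.pull (G.inc N s) e) = T.tr X (e * G.c N) at htr
  -- `a` is algebraic
  have ha : a ∈ T.C X (i + 1) := by
    have h2 : a = T.gys (G.inc N s) y := by
      rw [← sub_eq_zero]
      apply T.nondeg
      intro e
      rw [mul_sub, map_sub, h e, sub_eq_zero]
      have h3 : T.gys (G.inc N s) y ∈ T.C X (i + 1) := T.gys_mem _ hy (by omega)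
      rw [← T.tr_even_comm (T.C_deg _ _ h3), T.tr_gys _ (T.C_deg _ _ hy),
        T.tr_even_comm (T.C_deg _ _ hy)]
    rw [h2]
    exact T.gys_mem _ hy (by omega)
  -- hard Lefschetz
  obtain ⟨η, hη, hηr, hηa⟩ : ∃ η ∈ T.deg X (2 * i), η ∈ G.rat X ∧ G.c M * η = a := by
    obtain ⟨i, rfl⟩ : ∃ j, i = j + 1 := ⟨i - 1, by omega⟩
    obtain ⟨η, hη, h3⟩ := G.hard_surj M (i := 2 * i) (k := 2) (by omega) a
      (T.deg_of_eq (T.C_deg _ _ ha) (by omega))
    refine ⟨G.c M * η, ?_, ?_, ?_⟩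
    · exact T.deg_of_eq (T.mul_deg (G.c_deg M) hη) (by omega)
    · exact G.rat_mul (G.c_rat M) (G.hard_rat M (i := 2 * i) (k := 2) (by omega) η hη
        (by rw [h3]; exact har))
    · rw [← mul_assoc, ← pow_two, h3]
  -- restriction of `η`
  have hres : T.pull (G.inc N s) η = r • y := by
    rw [← sub_eq_zero]
    have hd : T.pull (G.inc N s) η - r • y ∈ T.deg _ (2 * i) :=
      sub_mem (T.pull_deg _ hη) (Submodule.smul_mem _ _ (T.C_deg _ _ hy))
    apply T.eq_zero_of_deg hd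
    intro j hj y' hy'
    obtain ⟨e, he, rfl⟩ := G.hyp_weak N s hX j (by omega) y' hy'
    change T.tr _ (T.pull (G.inc N s) e * _) = 0
    rw [mul_sub, map_sub, mul_smul_comm, map_smul, ← h e, ← map_mul, htr, hN,
      mul_smul_comm, map_smul, mul_assoc, ← G.c_comm, hηa, sub_self]
  have hηy : T.pull (G.inc N s) η ∈ T.C _ i := by
    rw [hres]
    exact Submodule.smul_mem _ _ hy
  -- spreading
  obtain ⟨e0, he0, h4⟩ := G.spread (G.univ N) i (T.pull (G.ev N) η) (T.pull_deg _ hη)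
    (G.rat_pull _ hηr) (by
    intro t
    have := hyp N hi1 hi η hη hηr s t hηy
    unfold Geo.inc at this
    rwa [T.pull_comp] at this)
  obtain ⟨e, he, h5⟩ := G.hyp_bundle N hX i e0 he0
  have h6 : T.pull (G.inc N s) e = T.pull (G.inc N s) η := by
    unfold Geo.inc
    rw [← h5, h4, T.pull_comp]
  refine ⟨e, he, ?_⟩
  rw [← sub_eq_zero]
  apply T.nondeg
  intro x
  have h7 : r * T.tr X (x * (G.c M * e - a)) = 0 := by
    have h8 : ∀ e : T.H X, r * T.tr X (x * (G.c M * e)) =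
        T.tr _ (T.pull (G.inc N s) x * T.pull (G.inc N s) e) := by
      intro e
      rw [← map_mul, htr, hN, mul_smul_comm, map_smul, smul_eq_mul, mul_assoc,
        ← G.c_comm]
    rw [mul_sub, map_sub, mul_sub, h8, h6, ← h8, hηa, sub_self]
  exact (mul_eq_zero.mp h7).resolve_left hr

theorem divide (hyp : G.Q1hyp) : G.Div := by
  intro X M m hm a ha
  rcases Nat.eq_zero_or_pos m with h0 | h0
  · refine ⟨0, zero_mem _, ?_⟩
    rw [mul_zero, T.C_eq_zero ha (by omega)]
  have h1 := G.hyp_mov M h0 hm ha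
  clear ha
  induction h1 using Submodule.span_induction with
  | mem a h =>
    obtain ⟨har, k, s, y, hy, h⟩ := h
    exact G.divide_aux hyp M (G.pow M k) (by positivity) (G.c_pow M k) h0 hm s hy har h
  | zero => exact ⟨0, zero_mem _, mul_zero _⟩
  | add x y _ _ hx hy =>
    obtain ⟨e, he, h2⟩ := hx
    obtain ⟨e', he', h3⟩ := hy
    exact ⟨e + e', add_mem he he', by rw [mul_add, h2, h3]⟩
  | smul r x _ hx =>
    obtain ⟨e, he, h2⟩ := hx
    exact ⟨r • e, Submodule.smul_mem _ _ he, by rw [mul_smul_comm, h2]⟩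

end Geo

namespace Pol

variable (G : Pol.{u, v, w, b} T)

/-- the recursion on `P^k × X` -/
theorem descent {X : V} (M : G.Bund X) (k i : ℕ) {a : T.H X} {e : T.H (G.P k ⊗ X)}
    (he : e ∈ T.C _ (i + k)) (h : G.c (G.box (G.O1 k) M) * e = T.pull (snd (G.P k) X) a) :
    ∃ d ∈ T.C X i, G.c M ^ (k + 1) * d = a := by
  set x := G.c (G.O1 k) with hx
  let d : ℕ → T.H X := fun j => T.push (G.P k) X (T.pull (fst (G.P k) X) (x ^ j) * e)
  have hd0 : d 0 ∈ T.C X i := by
    apply T.C_push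
    refine T.C_of_eq (T.C_mul (T.C_pull _ (G.c_pow_mem (G.O1 k) 0)) he) ?_
    rw [G.P_dim]
    omega
  have hrec : ∀ j, d (j + 1) + G.c M * d j = T.tr (G.P k) (x ^ j) • a := by
    intro j
    have h1 : T.push (G.P k) X (T.pull (fst (G.P k) X) (x ^ j) *
        (G.c (G.box (G.O1 k) M) * e)) = T.tr (G.P k) (x ^ j) • a := by
      rw [h, T.push_pure]
    rw [← h1, G.c_box, add_mul, mul_add, map_add]
    congr 1
    · change T.push _ _ _ = _
      rw [pow_succ, map_mul (T.pull (fst (G.P k) X)), mul_assoc]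
    · have h2 := T.even_comm (T.snd_deg (X := G.P k) (G.c_deg M))
        (T.pull (fst (G.P k) X) (x ^ j))
      rw [← mul_assoc, ← h2, mul_assoc, T.push_snd_mul]
  have hlast : d (k + 1) = 0 := by
    have : x ^ (k + 1) = 0 := by
      apply T.C_eq_zero (G.c_pow_mem (G.O1 k) (k + 1))
      rw [G.P_dim]
      omega
    change T.push (G.P k) X (T.pull (fst (G.P k) X) (x ^ (k + 1)) * e) = 0
    rw [this, map_zero, zero_mul, map_zero]
  have hsmall : ∀ j < k, T.tr (G.P k) (x ^ j) = 0 := by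
    intro j hj
    apply T.tr_deg (T.C_deg _ _ (G.c_pow_mem (G.O1 k) j))
    rw [G.P_dim]
    omega
  have hd : ∀ j ≤ k, d j = (-1 : ℝ) ^ j • (G.c M ^ j * d 0) := by
    intro j hj
    induction j with
    | zero => simp
    | succ j ih =>
      have h1 := hrec j
      rw [hsmall j (by omega), zero_smul, ih (by omega)] at h1
      rw [eq_neg_of_add_eq_zero_left h1, pow_succ, pow_succ', mul_smul_comm, mul_assoc, mul_smul,
        neg_one_smul, smul_neg]
  have hk := hrec k
  rw [hlast, hx, G.P_tr, one_smul, zero_add, hd k le_rfl, mul_smul_comm, ← mul_assoc,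
    ← pow_succ'] at hk
  refine ⟨(-1 : ℝ) ^ k • d 0, Submodule.smul_mem _ _ hd0, ?_⟩
  rw [mul_smul_comm, hk]

/-- `L^{k+1}` from weight `-k` to weight `k+2` is onto. -/
theorem onto_two (hyp : G.Div) {X : V} (M : G.Bund X) {i k : ℕ} (hik : 2 * i + k = T.dim X)
    {a : T.H X} (ha : a ∈ T.C X (i + k + 1)) : ∃ d ∈ T.C X i, G.c M ^ (k + 1) * d = a := by
  have hdim : T.dim (G.P k ⊗ X) = k + T.dim X := by rw [T.dim_prod, G.P_dim]
  obtain ⟨e, he, h⟩ := hyp (G.box (G.O1 k) M) (m := i + k) (by rw [hdim]; omega)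
    (T.C_pull (snd (G.P k) X) ha)
  exact G.descent M k i he h

end Pol

end Pool.VHC
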