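import Pool.Agent.Work.StdConj.Main
import Pool.Agent.Work.StdConj.Point
import Pool.Agent.Work.MP_298761_vhc.H

/-!
Very general members of linear systems: the sign conjecture implies the Lefschetz standard
conjecture.  VHC for hyperplane sections from surjectivity above the middle.
-/

open CategoryTheory MonoidalCategory CartesianMonoidalCategory

universe u v w b f

namespace Pool.VHC

open Pool.KC Pool.SL

variable {V : Type u} [Category.{v} V] [CartesianMonoidalCategory V]

/-- the real spans of the algebraic classes -/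
noncomputable def cyc (T : WeilTheory.{u, v, w, 0} V ℝ) : Pool.Std.Cyc T where
  A X i := (T.C X i).toAddSubgroup
  le := fun ha => ha
  smul := fun _ _ ha => Submodule.smul_mem _ _ ha
  one := T.C_one
  mul := fun ha hb => T.C_mul ha hb
  pull := fun f _ _ ha => T.C_pull f ha
  push := fun ha => T.C_push ha
  diag := T.C_diag

variable {T : WeilTheory.{u, v, w, 0} V ℝ}

/-- line bundles -/
noncomputable def Pol.toPl (G : Pol.{u, v, w, b} T) : Pool.Std.Pl (cyc T) where
  Bund := G.Bund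
  c := G.c
  c_mem := G.c_mem
  box := G.box
  c_box := G.c_box
  P1 := G.P 1
  O1 := G.O1 1
  P_dim := G.P_dim 1
  P_tr := by
    have := G.P_tr 1
    rwa [pow_one] at this
  hard_inj := G.hard_inj
  hard_surj := G.hard_surj

namespace Geo

variable (G : Geo.{u, v, w, b, f} T)

/-- very general members -/
structure VG {X Y : V} (M : G.Bund X) (i : Y ⟶ X) : Prop where
  chern : ∃ N : G.Bund Y, G.c N = T.pull i (G.c M)
  vanishing : ∃ v ∈ T.deg Y (T.dim Y), v ≠ 0 ∧ ∀ a : T.H X, T.tr _ (v * T.pull i a) = 0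
  spread : ∀ z ∈ T.C (Y ⊗ Y) (T.dim Y),
    (∃ g ∈ T.deg (X ⊗ X) (2 * T.dim Y), ∃ r : ℝ, z = T.pull (sq i) g + r • T.diag Y) →
    ∃ g ∈ T.C (X ⊗ X) (T.dim Y), ∃ r : ℝ, z = T.pull (sq i) g + r • T.diag Y

variable {G}

/-- the internal form of a very general member -/
noncomputable def VG.toSect {X : V} (hX : 1 ≤ T.dim X) {M : G.Bund X} {k : ℕ}
    {s : G.Pt (G.univ (G.pow M k))} (h : G.VG M (G.inc (G.pow M k) s)) :
    Pool.Std.Sect (cyc T) (G.c M) where
  Y := G.fib (G.univ (G.pow M k)) s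
  i := G.inc (G.pow M k) s
  r := (k : ℚ) + 1
  r_ne := by
    push_cast
    positivity
  dim := G.hyp_dim (G.pow M k) s hX
  tr := by
    intro a
    have h1 := G.hyp_tr (G.pow M k) s hX a
    rw [G.c_pow, mul_smul_comm, map_smul, smul_eq_mul] at h1
    push_cast
    exact h1
  weak := by
    intro j hj y hy
    have hd := G.hyp_dim (G.pow M k) s hX
    exact G.hyp_weak (G.pow M k) s hX j (by omega) y hy
  hard := by
    intro j l hjl y hy
    obtain ⟨N, hN⟩ := h.chern
    obtain ⟨e, he, hey⟩ := G.hard_surj N (i := j) (k := l) hjl y hy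
    rw [hN] at hey
    exact ⟨e, he, hey⟩
  v := h.vanishing.choose
  v_mem := h.vanishing.choose_spec.1
  v_ne := h.vanishing.choose_spec.2.1
  v_orth := h.vanishing.choose_spec.2.2
  spread := h.spread

/-- the sign conjecture for a very general member of the ambient space gives the Lefschetz
standard conjecture -/
theorem lef_of_vg {X : V} (M : G.Bund X) {k : ℕ}
    {s : G.Pt (G.univ (G.pow (G.box (G.box (G.O1 1) (G.box (G.O1 1) M))
      (G.box (G.O1 1) (G.box (G.O1 1) M))) k))}
    (hvg : G.VG (G.box (G.box (G.O1 1) (G.box (G.O1 1) M))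
      (G.box (G.O1 1) (G.box (G.O1 1) M))) (G.inc _ s))
    (hs : Sign T (G.fib _ s)) : G.Lef M := by
  have hdim : T.dim ((G.P 1 ⊗ (G.P 1 ⊗ X)) ⊗ (G.P 1 ⊗ (G.P 1 ⊗ X))) = 2 * (T.dim X + 2) := by
    rw [T.dim_prod, T.dim_prod, T.dim_prod, G.P_dim]
    ring
  have h1 : (cyc T).Reg (G.c (G.box (G.box (G.O1 1) (G.box (G.O1 1) M))
      (G.box (G.O1 1) (G.box (G.O1 1) M)))) :=
    (hvg.toSect (by omega)).reg_of_sign (G.c_mem _) (m := T.dim X + 2) (by omega) hdim hs
  have h2 : G.toPl.LefB M := Pool.Std.Pl.lefB_of_reg_lines (G := G.toPl) M h1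
  obtain ⟨z, hz, h3⟩ := G.toPl.lef_of_lefB M h2
  exact ⟨z, hz, h3.comm⟩

/-- surjectivity above the middle gives VHC for hyperplane sections -/
theorem q1hyp_of_div (hyp : G.Div) : G.Q1hyp := by
  intro X M m h0 hm a ha _ s t hs
  have hX : 1 ≤ T.dim X := by omega
  have hds := G.hyp_dim M s hX
  have hdt := G.hyp_dim M t hX
  have htr := G.hyp_tr M s hX
  change ∀ e : T.H X, T.tr _ (T.pull (G.inc M s) e) = T.tr X (e * G.c M) at htr
  have htr' := G.hyp_tr M t hX
  change ∀ e : T.H X, T.tr _ (T.pull (G.inc M t) e) = T.tr X (e * G.c M) at htr'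
  -- `c a` is algebraic
  have h1 : G.c M * a = T.gys (G.inc M s) (T.pull (G.inc M s) a) := by
    rw [← sub_eq_zero]
    apply T.nondeg
    intro e
    have h3 : T.gys (G.inc M s) (T.pull (G.inc M s) a) ∈ T.C X (m + 1) :=
      T.gys_mem _ hs (by omega)
    rw [mul_sub, map_sub, sub_eq_zero, ← T.tr_even_comm (T.C_deg _ _ h3),
      T.tr_gys _ (T.C_deg _ _ hs), ← map_mul, htr, G.c_comm, ← mul_assoc,
      T.even_comm (i := m) ha e]
  have h2 : G.c M * a ∈ T.C X (m + 1) := by
    rw [h1]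
    exact T.gys_mem _ hs (by omega)
  obtain ⟨e, he, hea⟩ := hyp M hm h2
  have h4 : T.pull (G.inc M t) a = T.pull (G.inc M t) e := by
    rw [← sub_eq_zero, ← map_sub]
    apply T.eq_zero_of_deg (T.pull_deg _ (sub_mem ha (T.C_deg _ _ he)))
    intro j hj y hy
    obtain ⟨b, _, rfl⟩ := G.hyp_weak M t hX j (by omega) y hy
    change T.tr _ (T.pull (G.inc M t) b * _) = 0
    rw [← map_mul, htr', mul_assoc, ← G.c_comm, mul_sub, hea, sub_self, mul_zero, map_zero]
  rw [h4]
  exact T.C_pull _ he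

end Geo

end Pool.VHC
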