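import Pool.Agent.Work.MP_a60482_kc.Conv
import Pool.Agent.Work.MP_298761_vhc.Api
import Pool.Agent.Work.MP_298761_vhc.Num
import Pool.Agent.Work.MP_298761_vhc.Sections

/-!
From the public form of the axioms to the internal one.
-/

open CategoryTheory MonoidalCategory CartesianMonoidalCategory

universe u v w b f

namespace Pool.VHC

open Pool.KC

variable {V : Type u} [Category.{v} V] [CartesianMonoidalCategory V]
variable {D : WeilData.{u, v, w, 0} V ℝ}

namespace Geometry

variable (G : Geometry.{u, v, w, b, f} D)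

/-- the internal structure -/
@[reducible] def toPol (h : D.IsWeil) (h1 : G.IsPolarized) : Pol.{u, v, w, b} (WeilData.toWeil h) where
  weil := G.weil
  weil_deg := fun ha => h1.weilop.deg _ _ _ ha
  weil_sq := fun ha => h1.weilop.sq _ _ _ ha
  weil_mul := fun a e => h1.weilop.mul _ a e
  weil_pull := fun g a => h1.weilop.pull _ _ g a
  weil_tr := fun a => h1.weilop.int _ a
  weil_alg := fun ha => h1.weilop.alg _ _ _ ha
  Bund := G.Bund
  c := G.c
  c_mem := fun M => h1.bundle.alg _ M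
  box := G.box
  c_box := fun M N => h1.bundle.box _ _ M N
  P := G.P
  O1 := G.O1
  P_dim := h1.bundle.dim
  P_odd := by
    intro k i
    rw [eq_bot_iff]
    intro a ha
    rw [Submodule.mem_bot]
    exact h1.bundle.odd k i a ha
  P_tr := h1.bundle.int
  hard_inj := by
    intro X M i k hik a ha h
    exact h1.lefschetz.inj _ M i k hik a ha h
  hard_surj := by
    intro X M i k hik a ha
    exact h1.lefschetz.surj _ M i k hik a ha
  sl2 := fun M => h1.lefschetz.sl2 _ M
  hodge_riemann := by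
    intro X M i k hik a ha h0 h
    exact h1.lefschetz.hodge_riemann _ M i k hik a ha h0 h

/-- the internal structure -/
@[reducible] def toGeo (h : D.IsWeil) (h1 : G.IsPolarized) (h2 : G.IsGeometric) :
    Geo.{u, v, w, b, f} (WeilData.toWeil h) where
  toPol := G.toPol h h1
  rat := G.rat
  rat_mul := fun ha he => h2.rational.mul _ _ ha _ he
  rat_pull := fun g _ ha => h2.rational.pull _ _ g _ ha
  c_rat := fun M => h2.rational.chern _ M
  hard_rat := by
    intro X M i k hik a ha h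
    exact h2.rational.hard _ M i k hik a ha h
  pow := G.pow
  c_pow := fun M k => h2.hyperplane.pow _ M k
  Fam := G.Fam
  tot := G.tot
  Pt := G.Pt
  fib := G.fib
  fin := G.incl
  flat := h2.family.flat
  nondeg_fib := h2.family.nondeg
  spread := h2.family.spread
  univ := G.univ
  ev := G.ev
  hyp_dim := fun M s hX => h2.hyperplane.dim _ M s hX
  hyp_tr := fun M s hX a => h2.hyperplane.int _ M s hX a
  hyp_weak := fun M s hX i hi y hy => h2.hyperplane.weak _ M s hX i hi y hy
  hyp_mov := by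
    intro X M m h0 hm
    exact h2.hyperplane.moving _ M m h0 hm
  hyp_bundle := fun M hX i a ha => h2.hyperplane.bundle _ M hX i a ha
  dom := by
    intro X
    obtain ⟨X', g, ⟨M⟩, hd, h3⟩ := h2.domination X
    exact ⟨X', M, g, hd, h3⟩

theorem sign_iff (h : D.IsWeil) (X : V) : SignConj D X ↔ Sign (WeilData.toWeil h) X := by
  constructor
  · rintro ⟨z, hz, h1, h2⟩
    refine ⟨z, hz, fun i a ha => ?_, fun i a ha => ?_⟩
    · rw [WeilData.act_eq h]
      exact h1 i a ha
    · rw [WeilData.act_eq h]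
      exact h2 i a ha
  · rintro ⟨z, hz, h1, h2⟩
    refine ⟨z, hz, fun i a ha => ?_, fun i a ha => ?_⟩
    · rw [← WeilData.act_eq h]
      exact h1 i a ha
    · rw [← WeilData.act_eq h]
      exact h2 i a ha

theorem conjB_iff (h : D.IsWeil) (h1 : G.IsPolarized) {X : V} (M : G.Bund X) :
    G.ConjB M ↔ (G.toPol h h1).Lef M := by
  constructor
  · rintro ⟨z, hz, h2⟩
    refine ⟨z, hz, fun i a ha => ?_⟩
    rw [WeilData.act_eq h, WeilData.act_eq h]
    exact h2 i a ha
  · rintro ⟨z, hz, h2⟩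
    refine ⟨z, hz, fun i a ha => ?_⟩
    rw [← WeilData.act_eq h, ← WeilData.act_eq h]
    exact h2 i a ha

theorem div_iff (h : D.IsWeil) (h1 : G.IsPolarized) : G.MiddleSurjective ↔ (G.toPol h h1).Div :=
  ⟨fun h2 _ M _ hm _ ha => h2 _ M _ hm _ ha, fun h2 _ M _ hm _ ha => h2 M hm ha⟩

theorem vhcFor_iff (h : D.IsWeil) (h1 : G.IsPolarized) (h2 : G.IsGeometric) (F : G.Fam) :
    G.VHCFor F ↔ (G.toGeo h h1 h2).Q1for F := Iff.rfl

theorem vhc_iff (h : D.IsWeil) (h1 : G.IsPolarized) (h2 : G.IsGeometric) :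
    G.VHC ↔ (G.toGeo h h1 h2).Q1 := Iff.rfl

theorem vhcHyperplane_iff (h : D.IsWeil) (h1 : G.IsPolarized) (h2 : G.IsGeometric) :
    G.VHCHyperplane ↔ (G.toGeo h h1 h2).Q1hyp :=
  ⟨fun h3 _ M _ h0 hm a ha har s t hs => h3 _ M _ h0 hm a ha har s t hs,
    fun h3 _ M _ h0 hm a ha har s t hs => h3 M h0 hm a ha har s t hs⟩

theorem veryGeneral_iff (h : D.IsWeil) (h1 : G.IsPolarized) (h2 : G.IsGeometric) {X Y : V}
    (M : G.Bund X) (i : Y ⟶ X) : G.VeryGeneral M i ↔ (G.toGeo h h1 h2).VG M i :=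
  ⟨fun h3 => ⟨h3.chern, h3.vanishing, h3.spread⟩, fun h3 => ⟨h3.chern, h3.vanishing, h3.spread⟩⟩

theorem numericalLefschetz_iff (h : D.IsWeil) (h1 : G.IsPolarized) :
    G.NumericalLefschetz ↔ (G.toPol h h1).NumLef :=
  ⟨fun h2 _ M _ _ hik a ha => h2 _ M _ _ hik a ha, fun h2 _ M _ _ hik a ha => h2 M hik a ha⟩

end Geometry

end Pool.VHC
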