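import Pool.Agent.Work.MP_298761_vhc.Geo

/-!
The sign conjecture is stable under products.
-/

open CategoryTheory MonoidalCategory CartesianMonoidalCategory

universe u v w

namespace Pool.VHC

open Pool.KC

variable {V : Type u} [Category.{v} V] [CartesianMonoidalCategory V]
variable {T : WeilTheory.{u, v, w, 0} V ℝ}

/-- external product of correspondences -/
noncomputable def bx (T : WeilTheory.{u, v, w, 0} V ℝ) {X Y : V} (z : T.H (X ⊗ X)) (y : T.H (Y ⊗ Y)) :
    T.H ((X ⊗ Y) ⊗ (X ⊗ Y)) :=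
  T.pull (lift (fst (X ⊗ Y) (X ⊗ Y) ≫ fst X Y) (snd (X ⊗ Y) (X ⊗ Y) ≫ fst X Y)) z *
    T.pull (lift (fst (X ⊗ Y) (X ⊗ Y) ≫ snd X Y) (snd (X ⊗ Y) (X ⊗ Y) ≫ snd X Y)) y

theorem bx_mem {X Y : V} {z : T.H (X ⊗ X)} {y : T.H (Y ⊗ Y)} (hz : z ∈ T.C (X ⊗ X) (T.dim X))
    (hy : y ∈ T.C (Y ⊗ Y) (T.dim Y)) : bx T z y ∈ T.C ((X ⊗ Y) ⊗ (X ⊗ Y)) (T.dim (X ⊗ Y)) := by
  rw [T.dim_prod]
  exact T.C_mul (T.C_pull _ hz) (T.C_pull _ hy)

theorem bx_aux {R : Type*} [Ring R] [Algebra ℝ R] {a e p r s t : R} {c d : ℝ}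
    (h1 : e * p = c • (p * e)) (h2 : s * r = d • (r * s)) :
    a * e * (p * s * (r * t)) = (c * d) • (a * p * (e * r) * (s * t)) := by
  calc a * e * (p * s * (r * t)) = a * (e * p) * (s * r) * t := by simp only [mul_assoc]
    _ = (c * d) • (a * (p * e) * (r * s) * t) := by
        rw [h1, h2]
        simp only [smul_mul_assoc, mul_smul_comm, smul_smul]
        rw [mul_comm d c]
    _ = _ := by simp only [mul_assoc]

theorem act_bx {X Y : V} {k : ℕ} {z : T.H (X ⊗ X)} (hz : z ∈ T.deg (X ⊗ X) (2 * k))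
    (y : T.H (Y ⊗ Y)) {m n : ℕ} {a : T.H X} {e : T.H Y} (ha : a ∈ T.deg X m)
    (he : e ∈ T.deg Y n) :
    T.act (bx T z y) (T.pull (fst X Y) a * T.pull (snd X Y) e) =
      T.pull (fst X Y) (T.act z a) * T.pull (snd X Y) (T.act y e) := by
  refine T.kindk (P := fun z => T.act (bx T z y) (T.pull (fst X Y) a * T.pull (snd X Y) e) =
      T.pull (fst X Y) (T.act z a) * T.pull (snd X Y) (T.act y e))
      (by simp [bx, T.act_zero]) ?_ ?_ hz
  · intro i j p1 p2 hp1 hp2 hij
    refine T.kind' (P := fun y =>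
      T.act (bx T (T.pull (fst X X) p1 * T.pull (snd X X) p2) y)
        (T.pull (fst X Y) a * T.pull (snd X Y) e) =
      T.pull (fst X Y) (T.act (T.pull (fst X X) p1 * T.pull (snd X X) p2) a) *
        T.pull (snd X Y) (T.act y e)) (by simp [bx, T.act_zero]) ?_ ?_ y
    · intro s t q1 q2 hq1 hq2
      rw [T.act_pure, T.act_pure, T.act_apply]
      have h1 := T.comm (T.pull_deg (fst (X ⊗ Y) (X ⊗ Y) ≫ snd X Y) he)
        (T.pull_deg (fst (X ⊗ Y) (X ⊗ Y) ≫ fst X Y) hp1)
      have h2 := T.comm (T.pull_deg (snd (X ⊗ Y) (X ⊗ Y) ≫ fst X Y) hp2)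
        (T.pull_deg (fst (X ⊗ Y) (X ⊗ Y) ≫ snd X Y) hq1)
      rw [T.neg_pow_smul] at h1 h2
      have h3 : T.pull (fst (X ⊗ Y) (X ⊗ Y)) (T.pull (fst X Y) a * T.pull (snd X Y) e) *
          bx T (T.pull (fst X X) p1 * T.pull (snd X X) p2)
            (T.pull (fst Y Y) q1 * T.pull (snd Y Y) q2) =
          ((-1 : ℝ) ^ (n * i) * (-1) ^ (j * s)) •
            (T.pull (fst (X ⊗ Y) (X ⊗ Y)) (T.pull (fst X Y) (a * p1) * T.pull (snd X Y) (e * q1)) *
            T.pull (snd (X ⊗ Y) (X ⊗ Y)) (T.pull (fst X Y) p2 * T.pull (snd X Y) q2)) := by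
        unfold bx
        simp only [map_mul, T.pull_comp', lift_fst, lift_snd]
        exact bx_aux h1 h2
      rw [h3, map_smul, T.push_pure, T.tr_prod, map_smul, map_smul, smul_mul_assoc,
        mul_smul_comm, smul_smul, smul_smul]
      congr 1
      by_cases hn : n + s = 2 * T.dim Y
      · have h4 : ((-1 : ℝ) ^ (n * i) * (-1) ^ (j * s)) = 1 := by
          rw [← pow_add]
          apply Even.neg_one_pow
          have h5 : Even (n + s) := ⟨T.dim Y, by omega⟩
          have h6 : Even (i + j) := ⟨k, by omega⟩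
          rcases Nat.even_or_odd n with hn' | hn'
          · have hs' : Even s := (Nat.even_add.mp h5).mp hn'
            exact (hn'.mul_right i).add (hs'.mul_left j)
          · have hs' : Odd s := by
              rw [← Nat.not_even_iff_odd] at hn' ⊢
              exact fun h => hn' ((Nat.even_add.mp h5).mpr h)
            rcases Nat.even_or_odd i with hi' | hi'
            · have hj' : Even j := (Nat.even_add.mp h6).mp hi'
              exact (hi'.mul_left n).add (hj'.mul_right s)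
            · have hj' : Odd j := by
                rw [← Nat.not_even_iff_odd] at hi' ⊢
                exact fun h => hi' ((Nat.even_add.mp h6).mpr h)
              exact (hn'.mul hi').add_odd (hj'.mul hs')
        rw [h4, one_mul]
      · rw [T.tr_mul_ne he hq1 hn, mul_zero, mul_zero]
    · intro y y' h1 h2
      have h3 : bx T (T.pull (fst X X) p1 * T.pull (snd X X) p2) (y + y') =
          bx T (T.pull (fst X X) p1 * T.pull (snd X X) p2) y +
          bx T (T.pull (fst X X) p1 * T.pull (snd X X) p2) y' := by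
        simp only [bx, map_add, mul_add]
      rw [h3, T.act_add, T.act_add, LinearMap.add_apply, LinearMap.add_apply, h1, h2, map_add,
        mul_add]
  · intro z z' h1 h2
    have h3 : bx T (z + z') y = bx T z y + bx T z' y := by
      simp only [bx, map_add, add_mul]
    rw [h3, T.act_add, T.act_add, LinearMap.add_apply, LinearMap.add_apply, h1, h2, map_add,
      add_mul]

theorem sign_prod {X Y : V} (hX : Sign T X) (hY : Sign T Y) : Sign T (X ⊗ Y) := by
  obtain ⟨z, hz, hz0, hz1⟩ := hX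
  obtain ⟨y, hy, hy0, hy1⟩ := hY
  have hdz : z ∈ T.deg (X ⊗ X) (2 * T.dim X) := T.C_deg _ _ hz
  have hdz' : T.diag X - z ∈ T.deg (X ⊗ X) (2 * T.dim X) := sub_mem (T.diag_deg X) hdz
  have hval : ∀ {m n : ℕ} {a : T.H X} {e : T.H Y}, a ∈ T.deg X m → e ∈ T.deg Y n →
      T.act (bx T z y + bx T (T.diag X - z) (T.diag Y - y))
        (T.pull (fst X Y) a * T.pull (snd X Y) e) =
      T.pull (fst X Y) (T.act z a) * T.pull (snd X Y) (T.act y e) +
        T.pull (fst X Y) (a - T.act z a) * T.pull (snd X Y) (e - T.act y e) := by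
    intro m n a e ha he
    have h1 : T.act (T.diag X - z) a = a - T.act z a := by
      rw [sub_eq_add_neg, T.act_add, ← neg_one_smul ℝ z, T.act_smul, T.act_diag,
        LinearMap.add_apply, LinearMap.smul_apply, LinearMap.id_apply, neg_one_smul,
        ← sub_eq_add_neg]
    have h2 : T.act (T.diag Y - y) e = e - T.act y e := by
      rw [sub_eq_add_neg, T.act_add, ← neg_one_smul ℝ y, T.act_smul, T.act_diag,
        LinearMap.add_apply, LinearMap.smul_apply, LinearMap.id_apply, neg_one_smul,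
        ← sub_eq_add_neg]
    rw [T.act_add, LinearMap.add_apply, act_bx hdz y ha he, act_bx hdz' _ ha he, h1, h2]
  refine ⟨bx T z y + bx T (T.diag X - z) (T.diag Y - y), ?_, ?_, ?_⟩
  · exact add_mem (bx_mem hz hy) (bx_mem (sub_mem (T.C_diag X) hz) (sub_mem (T.C_diag Y) hy))
  · intro l x hx
    refine T.kindk (P := fun x => T.act (bx T z y + bx T (T.diag X - z) (T.diag Y - y)) x = x)
      (by simp) ?_ ?_ hx
    · intro m n a e ha he hmn
      rw [hval ha he]
      rcases Nat.even_or_odd' m with ⟨m', rfl | rfl⟩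
      · obtain ⟨n', rfl⟩ : ∃ n', n = 2 * n' := ⟨l - m', by omega⟩
        rw [hz0 _ _ ha, hy0 _ _ he, sub_self, map_zero, zero_mul, add_zero]
      · obtain ⟨n', rfl⟩ : ∃ n', n = 2 * n' + 1 := ⟨l - m' - 1, by omega⟩
        rw [hz1 _ _ ha, hy1 _ _ he, sub_zero, sub_zero, map_zero, zero_mul, zero_add]
    · intro a e h1 h2
      rw [map_add, h1, h2]
  · intro l x hx
    refine T.kindk (P := fun x => T.act (bx T z y + bx T (T.diag X - z) (T.diag Y - y)) x = 0)
      (by simp) ?_ ?_ hx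
    · intro m n a e ha he hmn
      rw [hval ha he]
      rcases Nat.even_or_odd' m with ⟨m', rfl | rfl⟩
      · obtain ⟨n', rfl⟩ : ∃ n', n = 2 * n' + 1 := ⟨l - m', by omega⟩
        rw [hz0 _ _ ha, hy1 _ _ he, sub_self, map_zero, map_zero, zero_mul, mul_zero, add_zero]
      · obtain ⟨n', rfl⟩ : ∃ n', n = 2 * n' := ⟨l - m', by omega⟩
        rw [hz1 _ _ ha, hy0 _ _ he, sub_self, map_zero, map_zero, zero_mul, mul_zero, add_zero]
    · intro a e h1 h2
      rw [map_add, h1, h2, add_zero]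

end Pool.VHC
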