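import Pool.Agent.Work.MP_298761_vhc.Strict

/-!
Numerical equivalence on the total space of a family and algebraic classes on a fibre.
-/

open CategoryTheory MonoidalCategory CartesianMonoidalCategory

universe u v w x

namespace Pool.VHC

open Pool.KC

/-- a pairing which is nondegenerate on the left bounds the dimension -/
theorem finrank_le_of_pairing {K H : Type*} [Field K] [AddCommGroup H] [Module K H]
    [FiniteDimensional K H] (φ : H →ₗ[K] H →ₗ[K] K) (A B : Submodule K H)
    (hnd : ∀ a ∈ A, (∀ e ∈ B, φ a e = 0) → a = 0) : Module.finrank K A ≤ Module.finrank K B := by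
  let P : A →ₗ[K] Module.Dual K B := B.subtype.dualMap ∘ₗ φ ∘ₗ A.subtype
  have hinj : Function.Injective P := by
    rw [injective_iff_map_eq_zero]
    intro a ha
    apply Subtype.ext
    refine hnd a a.2 fun e he => ?_
    exact congrArg (fun g : Module.Dual K B => g ⟨e, he⟩) ha
  calc Module.finrank K A ≤ Module.finrank K (Module.Dual K B) :=
        LinearMap.finrank_le_finrank_of_injective hinj
    _ = Module.finrank K B := Subspace.dual_finrank_eq

variable {V : Type u} [Category.{v} V] [CartesianMonoidalCategory V] {K : Type x} [Field K]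
variable {T : WeilTheory.{u, v, w, x} V K}

/-- strictness of the restriction to a fibre, if numerical and homological equivalence coincide
on the total space -/
theorem strict' {X Y : V} (hX : Num T X) (f : Y ⟶ X)
    (hnd : ∀ a : T.H X, (∀ b : T.H X, T.tr Y (T.pull f (a * b)) = 0) → T.pull f a = 0) {i : ℕ}
    {x : T.H X} (hx : x ∈ T.deg X (2 * i)) (h : T.pull f x ∈ T.C Y i) :
    ∃ e ∈ T.C X i, T.pull f e = T.pull f x := by
  by_cases hiY : T.dim Y < i
  · refine ⟨0, Submodule.zero_mem _, ?_⟩
    rw [map_zero, T.C_eq_zero h hiY]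
  let A : ℕ → Submodule K (T.H Y) := fun i => T.C Y i ⊓ (T.deg X (2 * i)).map (T.pull f).toLinearMap
  let B : ℕ → Submodule K (T.H Y) := fun i => (T.C X i).map (T.pull f).toLinearMap
  have hBA : ∀ i, B i ≤ A i := by
    rintro i _ ⟨e, he, rfl⟩
    exact ⟨T.C_pull f he, ⟨e, T.C_deg _ _ he, rfl⟩⟩
  have key : ∀ i j, i + j = T.dim Y → ∀ y ∈ A i, (∀ w ∈ B j, T.tr Y (y * w) = 0) → y = 0 := by
    rintro i j hij _ ⟨hy, ⟨a, ha, rfl⟩⟩ hw
    change T.pull f a ∈ T.C Y i at hy
    change T.pull f a = 0
    apply hnd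
    intro b
    refine T.hind (P := fun b => T.tr Y (T.pull f (a * b)) = 0) (by simp) ?_ ?_ b
    · intro l b hb
      by_cases hl : 2 * i + l = 2 * T.dim Y
      · by_cases hj : T.dim X < j
        · rw [T.deg_eq_zero hb (by omega), mul_zero, map_zero, map_zero]
        · have hg : T.gys f (T.pull f a) ∈ T.C X (T.dim X - j) := T.gys_mem f hy (by omega)
          have h0 : T.gys f (T.pull f a) = 0 := by
            refine hX (T.dim X - j) j (by omega) _ hg fun e he => ?_
            rw [T.tr_gys f (T.C_deg _ _ hy)]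
            exact hw _ ⟨e, he, rfl⟩
          rw [map_mul, ← T.tr_gys f (T.C_deg _ _ hy), h0, zero_mul, map_zero]
      · exact T.tr_deg (T.pull_deg f (T.mul_deg ha hb)) hl
    · intro b c h1 h2
      rw [mul_add, map_add, map_add, h1, h2, add_zero]
  have hdim : ∀ i j, i + j = T.dim Y → Module.finrank K (A i) ≤ Module.finrank K (B j) :=
    fun i j hij => finrank_le_of_pairing
      (LinearMap.compr₂ (LinearMap.mul K (T.H Y)) (T.tr Y)) (A i) (B j)
      (fun y hy hw => key i j hij y hy hw)
  have hmono : ∀ i, Module.finrank K (B i) ≤ Module.finrank K (A i) := fun i =>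
    Submodule.finrank_mono (hBA i)
  have heq : B i = A i := by
    apply Submodule.eq_of_le_of_finrank_le (hBA i)
    calc Module.finrank K (A i) ≤ Module.finrank K (B (T.dim Y - i)) := hdim _ _ (by omega)
      _ ≤ Module.finrank K (A (T.dim Y - i)) := hmono _
      _ ≤ Module.finrank K (B i) := hdim _ _ (by omega)
  have hmem : T.pull f x ∈ A i := ⟨h, ⟨x, hx, rfl⟩⟩
  rw [← heq] at hmem
  obtain ⟨e, he, hee⟩ := hmem
  exact ⟨e, he, hee⟩

end Pool.VHC
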