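import Pool.Agent.Work.MP_298761_vhc.Back
import Pool.Agent.Work.MP_298761_vhc.Prod
import Pool.Agent.Work.MP_298761_vhc.Strict2
import Pool.Agent.Work.MP_298761_vhc.Conv

/-!
The main theorem.
-/

open CategoryTheory MonoidalCategory CartesianMonoidalCategory

universe u v w b f

namespace Pool.VHC

open Pool.KC

variable {V : Type u} [Category.{v} V] [CartesianMonoidalCategory V]

namespace Pol

variable {T : WeilTheory.{u, v, w, 0} V ℝ} (G : Pol.{u, v, w, b} T)

theorem lef_of_sign (hyp : G.Div) {X : V} (M : G.Bund X) (hs : Sign T X) : G.Lef M :=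
  G.lef_of_hla M (G.hla_of_sign hyp _ fun k => sign_prod (G.sign_P k) (sign_prod hs hs))

theorem div_of_lef (h : ∀ {X : V} (M : G.Bund X), G.Lef M) : G.Div :=
  G.div_of_hla fun M => G.hla_of_lef M (h M)

end Pol

namespace Geo

variable {T : WeilTheory.{u, v, w, 0} V ℝ} (G : Geo.{u, v, w, b, f} T)

theorem q1for_of_num (F : G.Fam) (h : Num T (G.tot F)) : G.Q1for F := by
  intro i a ha _ s t hs
  obtain ⟨e, he, hea⟩ := strict' h (G.fin F s) (G.nondeg_fib F s) ha hs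
  have h1 : T.pull (G.fin F s) (a - e) = 0 := by rw [map_sub, hea, sub_self]
  have h2 := G.flat F s t _ h1
  rw [map_sub, sub_eq_zero] at h2
  rw [h2]
  exact T.C_pull _ he

theorem q1for_of_lef (F : G.Fam) (M : G.Bund (G.tot F)) (h : G.Lef M) : G.Q1for F :=
  G.q1for_of_num F (G.num_of_hla M (G.hla_of_lef M h))

theorem q1_of_lef (h : ∀ {X : V} (M : G.Bund X), G.Lef M) : G.Q1 := by
  intro F
  obtain ⟨X', M, s, hd, ht⟩ := G.dom (G.tot F)
  exact G.q1for_of_num F (num_dom s hd ht (G.num_of_hla M (G.hla_of_lef M (h M))))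

end Geo

variable {D : WeilData.{u, v, w, 0} V ℝ} (G : Geometry.{u, v, w, b, f} D)

namespace Geometry

theorem sign_iff_conjB (h : D.IsWeil) (h1 : G.IsPolarized) (h2 : G.MiddleSurjective) {X : V}
    (M : G.Bund X) : SignConj D X ↔ G.ConjB M := by
  rw [G.conjB_iff h h1, sign_iff h]
  exact ⟨fun h3 => (G.toPol h h1).lef_of_sign ((G.div_iff h h1).mp h2) M h3,
    fun h3 => (G.toPol h h1).sign_of_lef M h3⟩

theorem divisible_and_sign (h : D.IsWeil) (h1 : G.IsPolarized) :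
    (∀ (X : V) (M : G.Bund X), G.ConjB M) ↔
      G.MiddleSurjective ∧ ∀ (X : V) (_ : G.Bund X), SignConj D X := by
  constructor
  · intro h3
    have h4 : G.MiddleSurjective := (G.div_iff h h1).mpr
      ((G.toPol h h1).div_of_lef fun {X} M => (G.conjB_iff h h1 M).mp (h3 X M))
    exact ⟨h4, fun X M => (G.sign_iff_conjB h h1 h4 M).mpr (h3 X M)⟩
  · rintro ⟨h3, h4⟩ X M
    exact (G.sign_iff_conjB h h1 h3 M).mp (h4 X M)

theorem divisible_of_hyperplane (h : D.IsWeil) (h1 : G.IsPolarized) (h2 : G.IsGeometric)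
    (h3 : G.VHCHyperplane) : G.MiddleSurjective :=
  (G.div_iff h h1).mpr ((G.toGeo h h1 h2).divide ((G.vhcHyperplane_iff h h1 h2).mp h3))

theorem hyperplane_of_vhc (h : D.IsWeil) (h1 : G.IsPolarized) (h2 : G.IsGeometric)
    (h3 : G.VHC) : G.VHCHyperplane :=
  (G.vhcHyperplane_iff h h1 h2).mpr (Geo.Q1.hyp ((G.vhc_iff h h1 h2).mp h3))

theorem vhc_of_conjB (h : D.IsWeil) (h1 : G.IsPolarized) (h2 : G.IsGeometric)
    (h3 : ∀ (X : V) (M : G.Bund X), G.ConjB M) : G.VHC :=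
  (G.vhc_iff h h1 h2).mpr ((G.toGeo h h1 h2).q1_of_lef fun {X} M =>
    (G.conjB_iff h h1 M).mp (h3 X M))

theorem hyperplane_of_divisible (h : D.IsWeil) (h1 : G.IsPolarized) (h2 : G.IsGeometric)
    (h3 : G.MiddleSurjective) : G.VHCHyperplane :=
  (G.vhcHyperplane_iff h h1 h2).mpr ((G.toGeo h h1 h2).q1hyp_of_div ((G.div_iff h h1).mp h3))

theorem numerical_of_divisible (h : D.IsWeil) (h1 : G.IsPolarized)
    (h3 : G.MiddleSurjective) : G.NumericalLefschetz :=
  (G.numericalLefschetz_iff h h1).mpr ((G.toPol h h1).numLef ((G.div_iff h h1).mp h3))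

/-- the sign conjecture for a very general member of `ambient M` implies the Lefschetz standard
conjecture for `M` -/
theorem conjB_of_sign (h : D.IsWeil) (h1 : G.IsPolarized) (h2 : G.IsGeometric) {X : V}
    (M : G.Bund X) (k : ℕ) (s : G.Pt (G.univ (G.pow (G.ambient M) k)))
    (hs : G.VeryGeneral (G.ambient M) (G.emb _ s))
    (h3 : SignConj D (G.member _ s)) : G.ConjB M := by
  rw [G.conjB_iff h h1]
  exact Geo.lef_of_vg (G := G.toGeo h h1 h2) M
    ((G.veryGeneral_iff h h1 h2 _ _).mp hs) ((sign_iff h _).mp h3)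

/-- the sign conjecture for all projective varieties implies the Lefschetz standard
conjecture -/
theorem conjB_of_sign_all (h : D.IsWeil) (h1 : G.IsPolarized) (h2 : G.IsGeometric)
    (h3 : ∀ X : V, G.Bund X → SignConj D X) (X : V) (M : G.Bund X) : G.ConjB M := by
  have hdim : D.dim ((G.P 1 ⊗ (G.P 1 ⊗ X)) ⊗ (G.P 1 ⊗ (G.P 1 ⊗ X))) = 2 * (D.dim X + 2) := by
    rw [h.kunneth.dim, h.kunneth.dim, h.kunneth.dim, h1.bundle.dim]
    ring
  obtain ⟨k, s, hs⟩ := h2.sections _ (G.ambient M) (D.dim X + 2) (by omega) hdim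
  obtain ⟨N, _⟩ := hs.chern
  exact G.conjB_of_sign h h1 h2 M k s hs (h3 _ N)

theorem vhcFor_of_conjB (h : D.IsWeil) (h1 : G.IsPolarized) (h2 : G.IsGeometric) (F : G.Fam)
    (M : G.Bund (G.tot F)) (h3 : G.ConjB M) : G.VHCFor F :=
  (G.vhcFor_iff h h1 h2 F).mpr ((G.toGeo h h1 h2).q1for_of_lef F M ((G.conjB_iff h h1 M).mp h3))

theorem main (h : D.IsWeil) (h1 : G.IsPolarized) (h2 : G.IsGeometric) :
    (∀ (F : G.Fam) (M : G.Bund (G.tot F)) (k : ℕ) (s : G.Pt (G.univ (G.pow (G.ambient M) k))),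
      G.VeryGeneral (G.ambient M) (G.emb _ s) → SignConj D (G.member _ s) → G.VHCFor F) ∧
    ((∀ X : V, G.Bund X → SignConj D X) → G.VHC) ∧
    (G.VHC → G.VHCHyperplane) ∧
    (G.VHCHyperplane ↔ G.MiddleSurjective) ∧
    (G.MiddleSurjective → G.NumericalLefschetz ∧
      ∀ (X : V) (M : G.Bund X), G.ConjB M ↔ SignConj D X) :=
  ⟨fun F M k s hs h3 => G.vhcFor_of_conjB h h1 h2 F M (G.conjB_of_sign h h1 h2 M k s hs h3),
    fun h3 => G.vhc_of_conjB h h1 h2 (G.conjB_of_sign_all h h1 h2 h3),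
    G.hyperplane_of_vhc h h1 h2,
    ⟨G.divisible_of_hyperplane h h1 h2, G.hyperplane_of_divisible h h1 h2⟩,
    fun h3 => ⟨G.numerical_of_divisible h h1 h3, fun _ M => (G.sign_iff_conjB h h1 h3 M).symm⟩⟩

end Geometry

end Pool.VHC
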