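import Mathlib

/-!
Linear algebra for the middle-degree argument.
-/

open Polynomial

namespace Pool.VHC

section

variable {E : Type*} [AddCommGroup E] [Module ℝ E] [FiniteDimensional ℝ E]

/-- orthonormal families for a definite form -/
theorem exists_on (F : Submodule ℝ E) (Q : E →ₗ[ℝ] E →ₗ[ℝ] ℝ)
    (hs : ∀ x ∈ F, ∀ y ∈ F, Q x y = Q y x) (ε : ℝ) (hε : ε * ε = 1)
    (hpos : ∀ x ∈ F, x ≠ 0 → 0 < ε * Q x x) :
    ∃ (r : ℕ) (g : Fin r → E), (∀ i, g i ∈ F) ∧ (∀ i j, Q (g i) (g j) = if i = j then ε else 0) ∧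
      ∀ x ∈ F, ∑ i, (ε * Q x (g i)) • g i = x := by
  classical
  let core : InnerProductSpace.Core ℝ F :=
    { inner := fun x y => ε * Q x.1 y.1
      conj_inner_symm := by
        intro x y
        simp [hs x.1 x.2 y.1 y.2]
      re_inner_nonneg := by
        intro x
        by_cases hx : x.1 = 0
        · simp [hx]
        · exact (hpos x.1 x.2 hx).le
      add_left := by
        intro x y z
        simp [mul_add]
      smul_left := by
        intro x y r
        simp only [Submodule.coe_smul, map_smul, LinearMap.smul_apply, smul_eq_mul]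
        simp
        ring
      definite := by
        intro x hx
        by_contra h
        have h1 : x.1 ≠ 0 := fun h2 => h (Subtype.ext h2)
        have := hpos x.1 x.2 h1
        exact absurd hx this.ne' }
  letI : NormedAddCommGroup F := core.toNormedAddCommGroup
  letI : InnerProductSpace ℝ F := InnerProductSpace.ofCore core.toCore
  have hinner : ∀ x y : F, inner ℝ x y = ε * Q x.1 y.1 := fun x y => rfl
  let B := stdOrthonormalBasis ℝ F
  refine ⟨Module.finrank ℝ F, fun i => (B i).1, fun i => (B i).2, ?_, ?_⟩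
  · intro i j
    have h1 := orthonormal_iff_ite.mp B.orthonormal i j
    rw [hinner] at h1
    have h2 : Q (B i).1 (B j).1 = ε * (ε * Q (B i).1 (B j).1) := by
      rw [← mul_assoc, hε, one_mul]
    rw [h2, h1]
    simp
  · intro x hx
    have h1 := B.sum_repr ⟨x, hx⟩
    have h2 := congrArg Subtype.val h1
    rw [AddSubmonoidClass.coe_finsetSum] at h2
    refine Eq.trans (Finset.sum_congr rfl fun i _ => ?_) h2
    rw [Submodule.coe_smul, B.repr_apply_apply, hinner, hs _ (B i).2 x hx]

/-- functional calculus -/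
theorem exists_poly (B e₁ e₂ : Module.End ℝ E) (h₁ : e₁ * e₁ = e₁) (h₂ : e₂ * e₂ = e₂)
    (c₁ : B * e₁ = e₁ * B) (c₂ : B * e₂ = e₂ * B)
    (hp : ∀ p : ℝ[X], Irreducible p → ∀ v, v ≠ 0 → e₁ v = v → aeval B p v = 0 →
      ∀ w, w ≠ 0 → e₂ w = w → aeval B p w = 0 → False) :
    ∃ f : ℝ[X], aeval B f * e₁ = 0 ∧ aeval B f * e₂ = e₂ := by
  classical
  let I : Module.End ℝ E → Ideal ℝ[X] := fun e =>
    { carrier := {f | aeval B f * e = 0}
      add_mem' := by
        intro f g hf hg
        change aeval B (f + g) * e = 0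
        rw [map_add, add_mul, hf, hg, add_zero]
      zero_mem' := by
        change aeval B 0 * e = 0
        rw [map_zero, zero_mul]
      smul_mem' := by
        intro c f hf
        change aeval B (c * f) * e = 0
        rw [map_mul, mul_assoc, hf, mul_zero] }
  have hI : ∀ e f, f ∈ I e ↔ aeval B f * e = 0 := fun e f => Iff.rfl
  have hcomm : ∀ e : Module.End ℝ E, B * e = e * B → ∀ f : ℝ[X], aeval B f * e = e * aeval B f := by
    intro e he f
    have h3 : Commute B e := he
    induction f using Polynomial.induction_on' with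
    | add p q hp hq => rw [map_add, add_mul, mul_add, hp, hq]
    | monomial n a =>
      rw [aeval_monomial, mul_assoc, (h3.pow_left n).eq, ← mul_assoc, Algebra.commutes, mul_assoc]
  have hne : ∀ e, Submodule.IsPrincipal.generator (I e) ≠ 0 := by
    intro e he
    rw [← Submodule.IsPrincipal.eq_bot_iff_generator_eq_zero] at he
    have h3 : minpoly ℝ B ∈ I e := by
      rw [hI, minpoly.aeval, zero_mul]
    rw [he, Submodule.mem_bot] at h3
    exact minpoly.ne_zero (Algebra.IsIntegral.isIntegral B) h3
  -- an irreducible factor of the generator has a kernel vector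
  have hfac : ∀ (e : Module.End ℝ E), e * e = e → B * e = e * B → ∀ p : ℝ[X], Irreducible p →
      p ∣ Submodule.IsPrincipal.generator (I e) → ∃ v, v ≠ 0 ∧ e v = v ∧ aeval B p v = 0 := by
    intro e hee heB p hp ⟨q, hq⟩
    have hqI : q ∉ I e := by
      intro hqI
      rw [Submodule.IsPrincipal.mem_iff_generator_dvd, hq] at hqI
      obtain ⟨t, ht⟩ := hqI
      have hq0 : q ≠ 0 := by
        rintro rfl
        rw [mul_zero] at hq
        exact hne e hq
      have h3 : p * t = 1 := by
        have h4 : q * (p * t) = q * 1 := by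
          rw [mul_one]
          calc q * (p * t) = p * q * t := by ring
            _ = q := ht.symm
        exact mul_left_cancel₀ hq0 h4
      exact hp.not_isUnit (IsUnit.of_mul_eq_one _ h3)
    rw [hI] at hqI
    obtain ⟨x, hx⟩ : ∃ x, (aeval B q * e) x ≠ 0 := by
      by_contra h
      push Not at h
      exact hqI (LinearMap.ext h)
    refine ⟨(aeval B q * e) x, hx, ?_, ?_⟩
    · rw [hcomm e heB, ← Module.End.mul_apply, ← mul_assoc, hee]
    · rw [← Module.End.mul_apply, ← mul_assoc, ← map_mul, ← hq]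
      have := (hI e _).mp (Submodule.IsPrincipal.generator_mem (I e))
      rw [this]
      rfl
  have hcop : IsCoprime (Submodule.IsPrincipal.generator (I e₁))
      (Submodule.IsPrincipal.generator (I e₂)) := by
    apply isCoprime_of_irreducible_dvd
    · rintro ⟨h3, _⟩
      exact hne _ h3
    · intro p hpi h3 h4
      obtain ⟨v, hv, hv1, hv2⟩ := hfac e₁ h₁ c₁ p hpi h3
      obtain ⟨w, hw, hw1, hw2⟩ := hfac e₂ h₂ c₂ p hpi h4
      exact hp p hpi v hv hv1 hv2 w hw hw1 hw2
  obtain ⟨a, b, hab⟩ := hcop
  refine ⟨a * Submodule.IsPrincipal.generator (I e₁), ?_, ?_⟩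
  · rw [map_mul, mul_assoc, (hI e₁ _).mp (Submodule.IsPrincipal.generator_mem (I e₁)), mul_zero]
  · have h3 : a * Submodule.IsPrincipal.generator (I e₁) =
        1 - b * Submodule.IsPrincipal.generator (I e₂) := by
      rw [← hab]
      ring
    rw [h3, map_sub, map_mul, sub_mul, mul_assoc,
      (hI e₂ _).mp (Submodule.IsPrincipal.generator_mem (I e₂)), mul_zero, sub_zero, map_one,
      one_mul]

/-- real irreducible polynomials, and the two kinds of kernel vectors -/
theorem irreducible_cases {p : ℝ[X]} (hp : Irreducible p) :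
    (∃ r c : ℝ, r ≠ 0 ∧ p = C r * (X + C c)) ∨
    (∃ r b c : ℝ, r ≠ 0 ∧ p = C r * (X ^ 2 + C b * X + C c) ∧ ∀ t : ℝ, t ^ 2 + b * t + c ≠ 0) := by
  have hp0 := hp.ne_zero
  have hr : p.leadingCoeff ≠ 0 := leadingCoeff_ne_zero.mpr hp0
  have h2 := hp.natDegree_le_two
  have h1 : 1 ≤ p.natDegree := hp.natDegree_pos
  rcases Nat.lt_or_ge p.natDegree 2 with h3 | h3
  · left
    have h4 : p.natDegree = 1 := by omega
    have h5 := p.as_sum_range
    rw [h4] at h5
    simp only [Finset.sum_range_succ, Finset.sum_range_zero, zero_add] at h5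
    have h6 : p.coeff 1 ≠ 0 := by rwa [leadingCoeff, h4] at hr
    refine ⟨p.coeff 1, p.coeff 0 / p.coeff 1, h6, ?_⟩
    nth_rw 1 [h5]
    rw [mul_add, ← C_mul, mul_div_cancel₀ _ h6]
    simp only [monomial_zero_left]
    rw [← C_mul_X_pow_eq_monomial, pow_one, add_comm]
  · right
    have h4 : p.natDegree = 2 := by omega
    have h5 := p.as_sum_range
    rw [h4] at h5
    simp only [Finset.sum_range_succ, Finset.sum_range_zero, zero_add] at h5
    have h6 : p.coeff 2 ≠ 0 := by rwa [leadingCoeff, h4] at hr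
    have h7 : p = C (p.coeff 2) * (X ^ 2 + C (p.coeff 1 / p.coeff 2) * X +
        C (p.coeff 0 / p.coeff 2)) := by
      nth_rw 1 [h5]
      rw [mul_add, mul_add, ← mul_assoc, ← C_mul, ← C_mul, mul_div_cancel₀ _ h6,
        mul_div_cancel₀ _ h6]
      simp only [monomial_zero_left]
      rw [← C_mul_X_pow_eq_monomial, ← C_mul_X_pow_eq_monomial, pow_one]
      ring
    refine ⟨p.coeff 2, p.coeff 1 / p.coeff 2, p.coeff 0 / p.coeff 2, h6, h7, ?_⟩
    intro t ht
    have h8 : p.IsRoot t := by
      rw [IsRoot, h7]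
      simp only [eval_mul, eval_C, eval_add, eval_pow, eval_X]
      rw [ht, mul_zero]
    have h9 := degree_eq_one_of_irreducible_of_root hp h8
    rw [degree_eq_natDegree hp0, h4] at h9
    norm_num at h9

end

end Pool.VHC
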