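import Pool.Agent.Work.MP_298761_vhc.H
import Pool.Agent.Work.MP_298761_vhc.Lin

/-!
Orthonormal families of primitive classes `g i` of degree `2m`, `dim Z = 2m+1`, with `L g i`
algebraic, and the associated classes on `Z × Z`.
-/

open CategoryTheory MonoidalCategory CartesianMonoidalCategory

universe u v w b

namespace Pool.VHC

open Pool.KC

variable {V : Type u} [Category.{v} V] [CartesianMonoidalCategory V]
variable {T : WeilTheory.{u, v, w, 0} V ℝ}

/-- an orthonormal family -/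
structure Frame (G : Pol.{u, v, w, b} T) {Z : V} (M : G.Bund Z) (m r : ℕ)
    (g : Fin r → T.H Z) : Prop where
  dim : T.dim Z = 2 * m + 1
  deg : ∀ i, g i ∈ T.deg Z (2 * m)
  prim : ∀ i, G.c M * (G.c M * g i) = 0
  alg : ∀ i, G.c M * g i ∈ T.C Z (m + 1)
  on : ∀ i j, T.tr Z (G.c M * (g i * g j)) = if i = j then (-1) ^ m else 0

namespace Frame

variable {G : Pol.{u, v, w, b} T} {Z : V} {M : G.Bund Z} {m r : ℕ} {g : Fin r → T.H Z}

theorem sign_mul (m : ℕ) : ((-1 : ℝ) ^ m) * (-1) ^ m = 1 := by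
  rw [← mul_pow]
  simp

/-- `κ = ∑ g_i × g_i` -/
noncomputable def kap (T : WeilTheory.{u, v, w, 0} V ℝ) {Z : V} {r : ℕ} (g : Fin r → T.H Z) :
    T.H (Z ⊗ Z) := ∑ i, T.pull (fst Z Z) (g i) * T.pull (snd Z Z) (g i)

/-- `ℓ κ` -/
noncomputable def kap1 (T : WeilTheory.{u, v, w, 0} V ℝ) {Z : V} {r : ℕ} (l : T.H Z)
    (g : Fin r → T.H Z) : T.H (Z ⊗ Z) :=
  ∑ i, (T.pull (fst Z Z) (l * g i) * T.pull (snd Z Z) (g i) +
    T.pull (fst Z Z) (g i) * T.pull (snd Z Z) (l * g i))

/-- `ℓ ℓ κ / 2` -/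
noncomputable def kap2 (T : WeilTheory.{u, v, w, 0} V ℝ) {Z : V} {r : ℕ} (l : T.H Z)
    (g : Fin r → T.H Z) : T.H (Z ⊗ Z) :=
  ∑ i, T.pull (fst Z Z) (l * g i) * T.pull (snd Z Z) (l * g i)

theorem fst_snd_mul {l : T.H Z} {j : ℕ} (hl : l ∈ T.deg Z (2 * j)) (a b : T.H Z) :
    T.pull (snd Z Z) l * (T.pull (fst Z Z) a * T.pull (snd Z Z) b) =
      T.pull (fst Z Z) a * T.pull (snd Z Z) (l * b) := by
  rw [← mul_assoc, T.even_comm (T.snd_deg (X := Z) hl), mul_assoc, map_mul]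

theorem box_mul (M : G.Bund Z) (a b : T.H Z) :
    G.c (G.box M M) * (T.pull (fst Z Z) a * T.pull (snd Z Z) b) =
      T.pull (fst Z Z) (G.c M * a) * T.pull (snd Z Z) b +
        T.pull (fst Z Z) a * T.pull (snd Z Z) (G.c M * b) := by
  rw [G.c_box, add_mul, fst_snd_mul (G.c_deg M), ← mul_assoc, ← map_mul]

theorem box_kap (M : G.Bund Z) (g : Fin r → T.H Z) :
    G.c (G.box M M) * kap T g = kap1 T (G.c M) g := by
  unfold kap kap1
  rw [Finset.mul_sum]
  exact Finset.sum_congr rfl fun i _ => box_mul M _ _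

theorem box_kap1 (h : Frame G M m r g) :
    G.c (G.box M M) * kap1 T (G.c M) g = (2 : ℝ) • kap2 T (G.c M) g := by
  unfold kap1 kap2
  rw [Finset.mul_sum, Finset.smul_sum]
  refine Finset.sum_congr rfl fun i _ => ?_
  rw [mul_add, box_mul, box_mul, h.prim, map_zero, map_zero, zero_mul, mul_zero, zero_add,
    add_zero, two_smul]

theorem box_kap2 (h : Frame G M m r g) : G.c (G.box M M) * kap2 T (G.c M) g = 0 := by
  unfold kap2
  rw [Finset.mul_sum]
  refine Finset.sum_eq_zero fun i _ => ?_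
  rw [box_mul, h.prim, map_zero, map_zero, zero_mul, mul_zero, zero_add]

theorem kap2_mem (h : Frame G M m r g) : kap2 T (G.c M) g ∈ T.C (Z ⊗ Z) (2 * m + 2) := by
  unfold kap2
  refine sum_mem fun i _ => ?_
  exact T.C_of_eq (T.C_mul (T.C_pull _ (h.alg i)) (T.C_pull _ (h.alg i))) (by omega)

/-- the projector -/
noncomputable def pi (T : WeilTheory.{u, v, w, 0} V ℝ) {Z : V} {r : ℕ} (m : ℕ) (l : T.H Z)
    (g : Fin r → T.H Z) : Module.End ℝ (T.H Z) := T.act (((-1 : ℝ) ^ m) • kap1 T l g)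

theorem pi_apply (m : ℕ) (l : T.H Z) (g : Fin r → T.H Z) (x : T.H Z) :
    pi T m l g x = (-1 : ℝ) ^ m • ∑ i, (T.tr Z (x * (l * g i)) • g i +
      T.tr Z (x * g i) • (l * g i)) := by
  unfold pi
  rw [T.act_smul, LinearMap.smul_apply]
  congr 1
  unfold kap1
  rw [T.act_apply, Finset.mul_sum, map_sum]
  refine Finset.sum_congr rfl fun i _ => ?_
  rw [mul_add, map_add, ← T.act_apply, ← T.act_apply, T.act_pure, T.act_pure]

theorem act_kap2 (l : T.H Z) (g : Fin r → T.H Z) (x : T.H Z) :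
    T.act (kap2 T l g) x = ∑ i, T.tr Z (x * (l * g i)) • (l * g i) := by
  unfold kap2
  rw [T.act_apply, Finset.mul_sum, map_sum]
  refine Finset.sum_congr rfl fun i _ => ?_
  rw [← T.act_apply, T.act_pure]

theorem tr_gg (h : Frame G M m r g) {x : T.H Z} (hx : x ∈ T.deg Z (2 * m)) (i : Fin r) :
    T.tr Z (x * g i) = 0 :=
  T.tr_mul_ne hx (h.deg i) (by rw [h.dim]; omega)

theorem deg_lg (h : Frame G M m r g) (i : Fin r) : G.c M * g i ∈ T.deg Z (2 * (m + 1)) :=
  T.C_deg _ _ (h.alg i)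

theorem tr_glg (h : Frame G M m r g) (i j : Fin r) :
    T.tr Z (g i * (G.c M * g j)) = if i = j then (-1) ^ m else 0 := by
  rw [← h.on i j, ← mul_assoc, ← G.c_comm, mul_assoc]

theorem tr_lgg (h : Frame G M m r g) (i j : Fin r) :
    T.tr Z ((G.c M * g i) * g j) = if i = j then (-1) ^ m else 0 := by
  rw [← h.on i j, mul_assoc]

theorem tr_lglg (h : Frame G M m r g) (i j : Fin r) :
    T.tr Z ((G.c M * g i) * (G.c M * g j)) = 0 :=
  T.tr_mul_ne (h.deg_lg i) (h.deg_lg j) (by rw [h.dim]; omega)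

theorem pi_g (h : Frame G M m r g) (i : Fin r) : pi T m (G.c M) g (g i) = g i := by
  rw [pi_apply, Finset.sum_eq_single i]
  · rw [h.tr_glg, if_pos rfl, h.tr_gg (h.deg i), zero_smul, add_zero, smul_smul, sign_mul,
      one_smul]
  · intro j _ hj
    rw [h.tr_glg, if_neg (Ne.symm hj), h.tr_gg (h.deg i), zero_smul, zero_smul, add_zero]
  · intro hi
    exact absurd (Finset.mem_univ i) hi

theorem pi_lg (h : Frame G M m r g) (i : Fin r) :
    pi T m (G.c M) g (G.c M * g i) = G.c M * g i := by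
  rw [pi_apply, Finset.sum_eq_single i]
  · rw [h.tr_lgg, if_pos rfl, h.tr_lglg, zero_smul, zero_add, smul_smul, sign_mul, one_smul]
  · intro j _ hj
    rw [h.tr_lgg, if_neg (Ne.symm hj), h.tr_lglg, zero_smul, zero_smul, add_zero]
  · intro hi
    exact absurd (Finset.mem_univ i) hi

/-- the span of the `g i` and `L g i` -/
def sp (T : WeilTheory.{u, v, w, 0} V ℝ) {Z : V} {r : ℕ} (l : T.H Z) (g : Fin r → T.H Z) :
    Submodule ℝ (T.H Z) :=
  Submodule.span ℝ (Set.range g ∪ Set.range fun i => l * g i)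

theorem pi_mem_sp (m : ℕ) (l : T.H Z) (g : Fin r → T.H Z) (x : T.H Z) :
    pi T m l g x ∈ sp T l g := by
  rw [pi_apply]
  refine Submodule.smul_mem _ _ (sum_mem fun i _ => add_mem ?_ ?_)
  · exact Submodule.smul_mem _ _ (Submodule.subset_span (Or.inl ⟨i, rfl⟩))
  · exact Submodule.smul_mem _ _ (Submodule.subset_span (Or.inr ⟨i, rfl⟩))

theorem pi_of_mem (h : Frame G M m r g) {x : T.H Z} (hx : x ∈ sp T (G.c M) g) :
    pi T m (G.c M) g x = x := by
  unfold sp at hx
  induction hx using Submodule.span_induction with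
  | mem x hx =>
    rcases hx with ⟨i, rfl⟩ | ⟨i, rfl⟩
    · exact h.pi_g i
    · exact h.pi_lg i
  | zero => exact map_zero _
  | add x y _ _ hx hy => rw [map_add, hx, hy]
  | smul c x _ hx => rw [map_smul, hx]

theorem pi_pi (h : Frame G M m r g) :
    pi T m (G.c M) g * pi T m (G.c M) g = pi T m (G.c M) g := by
  ext x
  exact h.pi_of_mem (pi_mem_sp _ _ _ x)

theorem kap1_deg (h : Frame G M m r g) : kap1 T (G.c M) g ∈ T.deg (Z ⊗ Z) (2 * T.dim Z) := by
  unfold kap1
  refine sum_mem fun i _ => add_mem ?_ ?_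
  · refine T.deg_of_eq (T.mul_deg (T.fst_deg (h.deg_lg i)) (T.snd_deg (h.deg i))) ?_
    rw [h.dim]
    omega
  · refine T.deg_of_eq (T.mul_deg (T.fst_deg (h.deg i)) (T.snd_deg (h.deg_lg i))) ?_
    rw [h.dim]
    omega

theorem pi_deg (h : Frame G M m r g) {i : ℕ} {x : T.H Z} (hx : x ∈ T.deg Z i) :
    pi T m (G.c M) g x ∈ T.deg Z i :=
  T.act_deg (Submodule.smul_mem _ _ h.kap1_deg) (by omega) hx

/-- `π` commutes with `L` -/
theorem pi_l (h : Frame G M m r g) (x : T.H Z) :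
    pi T m (G.c M) g (G.c M * x) = G.c M * pi T m (G.c M) g x := by
  rw [pi_apply, pi_apply, mul_smul_comm, Finset.mul_sum]
  congr 1
  refine Finset.sum_congr rfl fun i _ => ?_
  have h1 : G.c M * x * (G.c M * g i) = x * (G.c M * (G.c M * g i)) := by
    rw [G.c_comm M x, mul_assoc]
  have h2 : G.c M * x * g i = x * (G.c M * g i) := by
    rw [G.c_comm M x, mul_assoc]
  rw [h1, h2, h.prim, mul_zero, map_zero, zero_smul, zero_add, mul_add, mul_smul_comm,
    mul_smul_comm, h.prim, smul_zero, add_zero]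

theorem l_pi (h : Frame G M m r g) (x : T.H Z) :
    G.c M * pi T m (G.c M) g x = (-1 : ℝ) ^ m • T.act (kap2 T (G.c M) g) x := by
  rw [pi_apply, act_kap2, mul_smul_comm, Finset.mul_sum]
  congr 1
  refine Finset.sum_congr rfl fun i _ => ?_
  rw [mul_add, mul_smul_comm, mul_smul_comm, h.prim, smul_zero, add_zero]

/-- `π` is symmetric -/
theorem tr_pi (h : Frame G M m r g) (x y : T.H Z) :
    T.tr Z (pi T m (G.c M) g x * y) = T.tr Z (x * pi T m (G.c M) g y) := by
  have e1 : ∀ i, T.tr Z (g i * y) = T.tr Z (y * g i) := fun i => T.tr_even_comm (h.deg i) y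
  have e2 : ∀ i, T.tr Z ((G.c M * g i) * y) = T.tr Z (y * (G.c M * g i)) := fun i =>
    T.tr_even_comm (h.deg_lg i) y
  rw [pi_apply, pi_apply, smul_mul_assoc, map_smul, mul_smul_comm, map_smul, Finset.sum_mul,
    Finset.mul_sum, map_sum, map_sum]
  congr 1
  refine Finset.sum_congr rfl fun i _ => ?_
  rw [add_mul, map_add, mul_add, map_add, smul_mul_assoc, map_smul, smul_mul_assoc, map_smul,
    mul_smul_comm, map_smul, mul_smul_comm, map_smul, e1, e2]
  simp only [smul_eq_mul]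
  ring

theorem pi_odd (h : Frame G M m r g) {i : ℕ} {x : T.H Z} (hx : x ∈ T.deg Z (2 * i + 1)) :
    pi T m (G.c M) g x = 0 := by
  rw [pi_apply]
  have : ∀ j, T.tr Z (x * (G.c M * g j)) • g j + T.tr Z (x * g j) • (G.c M * g j) = 0 := by
    intro j
    rw [T.tr_mul_ne hx (h.deg_lg j) (by omega), T.tr_mul_ne hx (h.deg j) (by omega), zero_smul,
      zero_smul, add_zero]
  rw [Finset.sum_congr rfl fun j _ => this j, Finset.sum_const_zero, smul_zero]

end Frame

/-- the Weil operator commutes with push-forward along projections -/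
theorem Pol.weil_push (G : Pol.{u, v, w, b} T) {X Y : V} (z : T.H (X ⊗ Y)) :
    G.weil Y (T.push X Y z) = T.push X Y (G.weil (X ⊗ Y) z) := by
  refine T.kind (P := fun z => G.weil Y (T.push X Y z) = T.push X Y (G.weil (X ⊗ Y) z))
    (by simp) ?_ ?_ z
  · intro a e
    rw [G.weil_mul, G.weil_pull, G.weil_pull, T.push_pure, T.push_pure, map_smul, G.weil_tr]
  · intro a e h1 h2
    simp only [map_add, h1, h2]

theorem Pol.weil_act (G : Pol.{u, v, w, b} T) {X Y : V} {z : T.H (X ⊗ Y)}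
    (hz : G.weil _ z = z) (x : T.H X) : G.weil Y (T.act z x) = T.act z (G.weil X x) := by
  rw [T.act_apply, T.act_apply, G.weil_push, G.weil_mul, G.weil_pull, hz]

end Pool.VHC
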