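import Pool.Agent.Work.MP_298761_vhc.Ops

/-!
Internal form of the geometric axioms (Betti cohomology with real coefficients).
-/

open CategoryTheory MonoidalCategory CartesianMonoidalCategory

universe u v w b f

namespace Pool.VHC

open Pool.KC

variable {V : Type u} [Category.{v} V] [CartesianMonoidalCategory V]

/-- Weil operators, rational classes, very ample line bundles, hard Lefschetz,
Hodge-Riemann. -/
structure Pol (T : WeilTheory.{u, v, w, 0} V ℝ) where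
  weil : ∀ X : V, T.H X →ₗ[ℝ] T.H X
  weil_deg : ∀ {X : V} {i : ℕ} {a : T.H X}, a ∈ T.deg X i → weil X a ∈ T.deg X i
  weil_sq : ∀ {X : V} {i : ℕ} {a : T.H X}, a ∈ T.deg X (2 * i) → weil X (weil X a) = a
  weil_mul : ∀ {X : V} (a b : T.H X), weil X (a * b) = weil X a * weil X b
  weil_pull : ∀ {X Y : V} (f : X ⟶ Y) (a : T.H Y), weil X (T.pull f a) = T.pull f (weil Y a)
  weil_tr : ∀ {X : V} (a : T.H X), T.tr X (weil X a) = T.tr X a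
  weil_alg : ∀ {X : V} {i : ℕ} {a : T.H X}, a ∈ T.C X i → weil X a = a
  Bund : V → Type b
  c : ∀ {X : V}, Bund X → T.H X
  c_mem : ∀ {X : V} (M : Bund X), c M ∈ T.C X 1
  box : ∀ {X Y : V}, Bund X → Bund Y → Bund (X ⊗ Y)
  c_box : ∀ {X Y : V} (M : Bund X) (N : Bund Y),
    c (box M N) = T.pull (fst X Y) (c M) + T.pull (snd X Y) (c N)
  P : ℕ → V
  O1 : ∀ k, Bund (P k)
  P_dim : ∀ k, T.dim (P k) = k
  P_odd : ∀ k i, T.deg (P k) (2 * i + 1) = ⊥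
  P_tr : ∀ k, T.tr (P k) (c (O1 k) ^ k) = 1
  hard_inj : ∀ {X : V} (M : Bund X) {i k : ℕ}, i + k = T.dim X → ∀ a ∈ T.deg X i,
    c M ^ k * a = 0 → a = 0
  hard_surj : ∀ {X : V} (M : Bund X) {i k : ℕ}, i + k = T.dim X → ∀ a ∈ T.deg X (i + 2 * k),
    ∃ e ∈ T.deg X i, c M ^ k * e = a
  sl2 : ∀ {X : V} (M : Bund X), ∃ lam : T.H X →ₗ[ℝ] T.H X,
    (∀ i < 2, ∀ a ∈ T.deg X i, lam a = 0) ∧
    (∀ (i : ℕ), ∀ a ∈ T.deg X (i + 2), lam a ∈ T.deg X i) ∧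
    (∀ (i : ℕ), ∀ a ∈ T.deg X i, c M * lam a - lam (c M * a) = ((i : ℝ) - T.dim X) • a)
  hodge_riemann : ∀ {X : V} (M : Bund X) {i k : ℕ}, 2 * i + k = T.dim X → ∀ a ∈ T.deg X (2 * i),
    a ≠ 0 → c M ^ (k + 1) * a = 0 → 0 < (-1) ^ i * T.tr X (c M ^ k * (a * weil X a))

/-- families -/
structure Geo (T : WeilTheory.{u, v, w, 0} V ℝ) extends Pol.{u, v, w, b} T where
  rat : ∀ X : V, AddSubgroup (T.H X)
  rat_mul : ∀ {X : V} {a e : T.H X}, a ∈ rat X → e ∈ rat X → a * e ∈ rat X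
  rat_pull : ∀ {X Y : V} (g : X ⟶ Y) {a : T.H Y}, a ∈ rat Y → T.pull g a ∈ rat X
  c_rat : ∀ {X : V} (M : Bund X), c M ∈ rat X
  hard_rat : ∀ {X : V} (M : Bund X) {i k : ℕ}, i + k = T.dim X → ∀ a ∈ T.deg X i,
    c M ^ k * a ∈ rat X → a ∈ rat X
  pow : ∀ {X : V}, Bund X → ℕ → Bund X
  c_pow : ∀ {X : V} (M : Bund X) (k : ℕ), c (pow M k) = ((k : ℝ) + 1) • c M
  Fam : Type f
  tot : Fam → V
  Pt : Fam → Type f
  fib : ∀ F : Fam, Pt F → V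
  fin : ∀ (F : Fam) (s : Pt F), fib F s ⟶ tot F
  flat : ∀ (F : Fam) (s t : Pt F) (a : T.H (tot F)), T.pull (fin F s) a = 0 →
    T.pull (fin F t) a = 0
  nondeg_fib : ∀ (F : Fam) (s : Pt F) (a : T.H (tot F)),
    (∀ b : T.H (tot F), T.tr _ (T.pull (fin F s) (a * b)) = 0) → T.pull (fin F s) a = 0
  spread : ∀ (F : Fam) (i : ℕ), ∀ a ∈ T.deg (tot F) (2 * i), a ∈ rat (tot F) →
    (∀ s, T.pull (fin F s) a ∈ T.C (fib F s) i) →
    ∃ e ∈ T.C (tot F) i, ∀ s, T.pull (fin F s) e = T.pull (fin F s) a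
  univ : ∀ {X : V}, Bund X → Fam
  ev : ∀ {X : V} (M : Bund X), tot (univ M) ⟶ X
  hyp_dim : ∀ {X : V} (M : Bund X) (s : Pt (univ M)), 1 ≤ T.dim X →
    T.dim (fib (univ M) s) + 1 = T.dim X
  hyp_tr : ∀ {X : V} (M : Bund X) (s : Pt (univ M)), 1 ≤ T.dim X → ∀ a : T.H X,
    T.tr _ (T.pull (fin (univ M) s ≫ ev M) a) = T.tr X (a * c M)
  hyp_weak : ∀ {X : V} (M : Bund X) (s : Pt (univ M)), 1 ≤ T.dim X → ∀ i < T.dim X - 1,
    ∀ y ∈ T.deg (fib (univ M) s) i, ∃ a ∈ T.deg X i, T.pull (fin (univ M) s ≫ ev M) a = y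
  hyp_mov : ∀ {X : V} (M : Bund X) {m : ℕ}, 1 ≤ m → T.dim X = 2 * m →
    T.C X (m + 1) ≤ Submodule.span ℝ {a | a ∈ rat X ∧ ∃ (k : ℕ) (s : Pt (univ (pow M k))),
      ∃ y ∈ T.C (fib (univ (pow M k)) s) m,
        ∀ e : T.H X, T.tr X (e * a) = T.tr _ (T.pull (fin (univ (pow M k)) s ≫ ev (pow M k)) e * y)}
  hyp_bundle : ∀ {X : V} (M : Bund X), 1 ≤ T.dim X → ∀ (i : ℕ), ∀ a ∈ T.C (tot (univ M)) i,
    ∃ e ∈ T.C X i, ∀ s, T.pull (fin (univ M) s) a = T.pull (fin (univ M) s ≫ ev M) e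
  dom : ∀ X : V, ∃ (X' : V) (_ : Bund X') (σ : X' ⟶ X), T.dim X' = T.dim X ∧
    ∀ a, T.tr X' (T.pull σ a) = T.tr X a

namespace Pol

variable {T : WeilTheory.{u, v, w, 0} V ℝ} (G : Pol.{u, v, w, b} T)

/-- in dimension `2m`, the hyperplane class maps the middle algebraic classes onto those of
codimension `m + 1` -/
def Div : Prop := ∀ {X : V} (M : G.Bund X) {m : ℕ}, T.dim X = 2 * m →
  ∀ {a : T.H X}, a ∈ T.C X (m + 1) → ∃ e ∈ T.C X m, G.c M * e = a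

/-- Lefschetz standard conjecture -/
def Lef {X : V} (M : G.Bund X) : Prop :=
  ∃ z ∈ T.C (X ⊗ X) (T.dim X - 1), ∀ (i : ℕ), ∀ a ∈ T.deg X i,
    G.c M * T.act z a - T.act z (G.c M * a) = ((i : ℝ) - T.dim X) • a

end Pol

namespace Geo

variable {T : WeilTheory.{u, v, w, 0} V ℝ} (G : Geo.{u, v, w, b, f} T)

/-- the inclusion of a member -/
def inc {X : V} (M : G.Bund X) (s : G.Pt (G.univ M)) : G.fib (G.univ M) s ⟶ X :=
  G.fin (G.univ M) s ≫ G.ev M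

/-- VHC for one family -/
def Q1for (F : G.Fam) : Prop := ∀ (i : ℕ), ∀ a ∈ T.deg (G.tot F) (2 * i), a ∈ G.rat (G.tot F) →
  ∀ s t : G.Pt F,
  T.pull (G.fin F s) a ∈ T.C (G.fib F s) i → T.pull (G.fin F t) a ∈ T.C (G.fib F t) i

/-- VHC for all families -/
def Q1 : Prop := ∀ F : G.Fam, G.Q1for F

/-- VHC for hyperplane sections -/
def Q1hyp : Prop := ∀ {X : V} (M : G.Bund X) {m : ℕ}, 1 ≤ m → T.dim X = 2 * m →
  ∀ a ∈ T.deg X (2 * m), a ∈ G.rat X →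
    ∀ s t : G.Pt (G.univ M), T.pull (G.inc M s) a ∈ T.C (G.fib (G.univ M) s) m →
      T.pull (G.inc M t) a ∈ T.C (G.fib (G.univ M) t) m

end Geo

/-- sign conjecture -/
def Sign (T : WeilTheory.{u, v, w, 0} V ℝ) (X : V) : Prop :=
  ∃ z ∈ T.C (X ⊗ X) (T.dim X), (∀ (i : ℕ), ∀ a ∈ T.deg X (2 * i), T.act z a = a) ∧
    ∀ (i : ℕ), ∀ a ∈ T.deg X (2 * i + 1), T.act z a = 0

end Pool.VHC
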