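import Pool.Agent.Work.MP_298761_vhc.Mid3

/-!
Hard Lefschetz for algebraic classes, stability under `Λ`, and the Lefschetz standard
conjecture.
-/

open CategoryTheory MonoidalCategory CartesianMonoidalCategory
open scoped TensorProduct

universe u v w b

namespace Pool.VHC

open Pool.KC

variable {V : Type u} [Category.{v} V] [CartesianMonoidalCategory V]
variable {T : WeilTheory.{u, v, w, 0} V ℝ} (G : Pol.{u, v, w, b} T)

namespace Pol

/-- hard Lefschetz for algebraic classes -/
def HLA {X : V} (M : G.Bund X) : Prop :=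
  ∀ (i k : ℕ), 2 * i + k = T.dim X → ∀ a ∈ T.C X (i + k), ∃ e ∈ T.C X i, G.c M ^ k * e = a

theorem sign_P (k : ℕ) : Sign T (G.P k) := by
  refine ⟨T.diag _, T.C_diag _, ?_, ?_⟩
  · intro i a _
    rw [T.act_diag, LinearMap.id_apply]
  · intro i a ha
    rw [G.P_odd, Submodule.mem_bot] at ha
    rw [ha, map_zero]

theorem hla_of_sign (hyp : G.Div) {Y : V} (M : G.Bund Y) (hs : ∀ k, Sign T (G.P k ⊗ Y)) :
    G.HLA M := by
  intro i k hik a ha
  cases k with
  | zero => exact ⟨a, ha, by rw [pow_zero, one_mul]⟩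
  | succ k =>
    have hdim : T.dim (G.P k ⊗ Y) = 2 * (i + k) + 1 := by
      rw [T.dim_prod, G.P_dim]
      omega
    obtain ⟨e, he, h⟩ := G.mid hyp (hs k) (G.box (G.O1 k) M) hdim
      (T.C_pull (snd (G.P k) Y) ha)
    exact G.descent M k i he h

theorem div_of_hla (h : ∀ {X : V} (M : G.Bund X), G.HLA M) : G.Div := by
  intro X M m hm a ha
  cases m with
  | zero =>
    refine ⟨0, zero_mem _, ?_⟩
    rw [mul_zero, T.C_eq_zero ha (by omega)]
  | succ m =>
    obtain ⟨e, he, hea⟩ := h M m 2 (by omega) a (T.C_of_eq ha (by omega))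
    refine ⟨G.c M * e, T.C_of_eq (T.C_mul (G.c_mem M) he) (by omega), ?_⟩
    rw [← mul_assoc, ← pow_two, hea]

/-- an operator `Λ` with `[L, Λ] = i - n` -/
structure IsLam {X : V} (M : G.Bund X) (lam : Module.End ℝ (T.H X)) : Prop where
  zero : ∀ i < 2, ∀ a ∈ T.deg X i, lam a = 0
  deg : ∀ (i : ℕ), ∀ a ∈ T.deg X (i + 2), lam a ∈ T.deg X i
  comm : ∀ (i : ℕ), ∀ a ∈ T.deg X i,
    G.c M * lam a - lam (G.c M * a) = ((i : ℝ) - T.dim X) • a

theorem IsLam.comm_pow {G : Pol.{u, v, w, b} T} {X : V} {M : G.Bund X}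
    {lam : Module.End ℝ (T.H X)} (h : G.IsLam M lam) (k : ℕ) {i : ℕ} {a : T.H X}
    (ha : a ∈ T.deg X i) : G.c M ^ (k + 1) * lam a - lam (G.c M ^ (k + 1) * a) =
      (((k : ℝ) + 1) * ((i : ℝ) - T.dim X + k)) • (G.c M ^ k * a) := by
  induction k with
  | zero =>
    rw [zero_add, pow_one, h.comm i a ha, pow_zero, one_mul]
    simp
  | succ k ih =>
    have h1 : G.c M ^ (k + 1) * a ∈ T.deg X (i + 2 * (k + 1)) :=
      T.deg_of_eq (T.mul_deg (T.C_deg _ _ (G.c_pow_mem M (k + 1))) ha) (by omega)
    have h2 := h.comm _ _ h1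
    have h3 : G.c M ^ (k + 1 + 1) * lam a = G.c M * (G.c M ^ (k + 1) * lam a) := by
      rw [pow_succ' _ (k + 1), mul_assoc]
    have h4 : G.c M ^ (k + 1 + 1) * a = G.c M * (G.c M ^ (k + 1) * a) := by
      rw [pow_succ' _ (k + 1), mul_assoc]
    have h5 : G.c M * (G.c M ^ k * a) = G.c M ^ (k + 1) * a := by
      rw [pow_succ' _ k, mul_assoc]
    rw [h3, h4, eq_add_of_sub_eq ih, mul_add, mul_smul_comm, h5, add_sub_assoc, h2, ← add_smul]
    congr 1
    push_cast
    ring

/-- stability of algebraic classes under `Λ` -/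
theorem lam_stable {X : V} {M : G.Bund X} (hA : G.HLA M) {lam : Module.End ℝ (T.H X)}
    (h : G.IsLam M lam) {q : ℕ} {a : T.H X} (ha : a ∈ T.C X (q + 1)) : lam a ∈ T.C X q := by
  have key : ∀ i k, 2 * i + k = T.dim X → ∀ a ∈ T.C X i,
      (∀ j, i = j + 1 → lam a ∈ T.C X j) ∧
      (∀ j, i + k = j + 1 → lam (G.c M ^ k * a) ∈ T.C X j) := by
    intro i
    induction i using Nat.strong_induction_on with
    | _ i ih =>
      intro k hik a ha
      have hA' : ∀ j, i = j + 1 → lam a ∈ T.C X j := by
        rintro j rfl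
        have h1 : lam (G.c M ^ (k + 2) * a) ∈ T.C X (j + k + 2) := by
          have h2 : G.c M ^ (k + 2) * a ∈ T.C X (j + k + 3) :=
            T.C_of_eq (T.C_mul (G.c_pow_mem M (k + 2)) ha) (by omega)
          cases j with
          | zero =>
            rw [T.C_eq_zero h2 (by omega), map_zero]
            exact zero_mem _
          | succ j =>
            obtain ⟨e, he, hea⟩ := hA j (k + 4) (by omega) _ (T.C_of_eq h2 (by omega))
            rw [← hea]
            exact T.C_of_eq ((ih j (by omega) (k + 4) (by omega) e he).2 (j + k + 3) (by omega))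
              (by omega)
        have h3 := h.comm_pow (k + 1) (T.C_deg _ _ ha)
        have h4 : G.c M ^ (k + 2) * lam a ∈ T.C X (j + (k + 2)) := by
          rw [show k + 2 = k + 1 + 1 by omega, eq_add_of_sub_eq h3]
          refine add_mem (Submodule.smul_mem _ _ ?_) ?_
          · exact T.C_of_eq (T.C_mul (G.c_pow_mem M (k + 1)) ha) (by omega)
          · exact T.C_of_eq h1 (by omega)
        obtain ⟨e, he, hea⟩ := hA j (k + 2) (by omega) _ h4
        have h5 : lam a = e := by
          rw [← sub_eq_zero]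
          apply G.hard_inj M (i := 2 * j) (k := k + 2) (by omega)
          · exact sub_mem (h.deg _ _ (T.deg_of_eq (T.C_deg _ _ ha) (by omega))) (T.C_deg _ _ he)
          · rw [mul_sub, hea, sub_self]
        rw [h5]
        exact he
      refine ⟨hA', ?_⟩
      intro j hj
      cases k with
      | zero =>
        rw [pow_zero, one_mul]
        exact hA' j (by omega)
      | succ k =>
        have h3 := h.comm_pow k (T.C_deg _ _ ha)
        have h4 : lam (G.c M ^ (k + 1) * a) = G.c M ^ (k + 1) * lam a -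
            (((k : ℝ) + 1) * (((2 * i : ℕ) : ℝ) - T.dim X + k)) • (G.c M ^ k * a) := by
          rw [← h3]
          abel
        rw [h4]
        refine sub_mem ?_ (Submodule.smul_mem _ _ ?_)
        · cases i with
          | zero =>
            rw [h.zero 0 (by omega) a (T.C_deg _ _ ha), mul_zero]
            exact zero_mem _
          | succ i =>
            exact T.C_of_eq (T.C_mul (G.c_pow_mem M (k + 1)) (hA' i rfl)) (by omega)
        · exact T.C_of_eq (T.C_mul (G.c_pow_mem M k) ha) (by omega)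
  rcases Nat.lt_or_ge (T.dim X) (q + 1) with h1 | h1
  · rw [T.C_eq_zero ha h1, map_zero]
    exact zero_mem _
  · rcases Nat.lt_or_ge (T.dim X) (2 * (q + 1)) with h2 | h2
    · obtain ⟨e, he, hea⟩ := hA (T.dim X - (q + 1)) (2 * (q + 1) - T.dim X) (by omega) a
        (T.C_of_eq ha (by omega))
      rw [← hea]
      exact (key (T.dim X - (q + 1)) (2 * (q + 1) - T.dim X) (by omega) e he).2 q (by omega)
    · exact (key (q + 1) (T.dim X - 2 * (q + 1)) (by omega) a ha).1 q rfl

/-- `Λ × 1 + 1 × Λ` -/
noncomputable def lp (T : WeilTheory.{u, v, w, 0} V ℝ) {X : V} (lam : Module.End ℝ (T.H X)) :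
    Module.End ℝ (T.H (X ⊗ X)) :=
  (T.kun X X).toLinearMap ∘ₗ (TensorProduct.map lam LinearMap.id +
    TensorProduct.map LinearMap.id lam) ∘ₗ (T.kun X X).symm.toLinearMap

theorem lp_pure {X : V} (lam : Module.End ℝ (T.H X)) (a e : T.H X) :
    lp T lam (T.pull (fst X X) a * T.pull (snd X X) e) =
      T.pull (fst X X) (lam a) * T.pull (snd X X) e +
        T.pull (fst X X) a * T.pull (snd X X) (lam e) := by
  rw [← T.kun_tmul, ← T.kun_tmul, ← T.kun_tmul]
  simp [lp]

theorem lp_isLam {X : V} {M : G.Bund X} {lam : Module.End ℝ (T.H X)} (h : G.IsLam M lam) :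
    G.IsLam (G.box M M) (lp T lam) := by
  refine ⟨?_, ?_, ?_⟩
  · intro i hi a ha
    refine T.kindk (P := fun a => lp T lam a = 0) (by simp) ?_ ?_ ha
    · intro s t a e hs ht hst
      rw [lp_pure, h.zero s (by omega) a hs, h.zero t (by omega) e ht]
      simp
    · intro a e h1 h2
      rw [map_add, h1, h2, add_zero]
  · intro i a ha
    refine T.kindk (P := fun a => lp T lam a ∈ T.deg (X ⊗ X) i) (by simp) ?_ ?_ ha
    · intro s t a e hs ht hst
      rw [lp_pure]
      refine add_mem ?_ ?_
      · rcases Nat.lt_or_ge s 2 with h1 | h1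
        · rw [h.zero s h1 a hs, map_zero, zero_mul]
          exact zero_mem _
        · obtain ⟨s, rfl⟩ : ∃ s', s = s' + 2 := ⟨s - 2, by omega⟩
          exact T.deg_of_eq (T.mul_deg (T.fst_deg (h.deg s a hs)) (T.snd_deg ht)) (by omega)
      · rcases Nat.lt_or_ge t 2 with h1 | h1
        · rw [h.zero t h1 e ht, map_zero, mul_zero]
          exact zero_mem _
        · obtain ⟨t, rfl⟩ : ∃ t', t = t' + 2 := ⟨t - 2, by omega⟩
          exact T.deg_of_eq (T.mul_deg (T.fst_deg hs) (T.snd_deg (h.deg t e ht))) (by omega)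
    · intro a e h1 h2
      rw [map_add]
      exact add_mem h1 h2
  · intro i a ha
    refine T.kindk (P := fun a => G.c (G.box M M) * lp T lam a - lp T lam (G.c (G.box M M) * a) =
      ((i : ℝ) - T.dim (X ⊗ X)) • a) (by simp) ?_ ?_ ha
    · intro s t a e hs ht hst
      have h1 := eq_add_of_sub_eq (h.comm s a hs)
      have h2 := eq_add_of_sub_eq (h.comm t e ht)
      rw [lp_pure, Frame.box_mul, mul_add, Frame.box_mul, Frame.box_mul, map_add, lp_pure,
        lp_pure, h1, h2, T.dim_prod, ← hst]
      push_cast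
      simp only [map_add, map_smul, add_mul, mul_add, smul_mul_assoc, mul_smul_comm]
      module
    · intro a e h1 h2
      rw [map_add, mul_add, mul_add, map_add, smul_add, ← h1, ← h2]
      abel

/-- `[L, act (Λ_+ u)]` for `u` of degree `2n` -/
theorem act_lp {X : V} {M : G.Bund X} {lam : Module.End ℝ (T.H X)} (h : G.IsLam M lam)
    {u : T.H (X ⊗ X)} (hu : u ∈ T.deg (X ⊗ X) (2 * T.dim X)) {j : ℕ} {x : T.H X}
    (hx : x ∈ T.deg X j) :
    G.c M * T.act (lp T lam u) x - T.act (lp T lam u) (G.c M * x) =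
      T.act (lp T lam (T.pull (snd X X) (G.c M) * u - T.pull (fst X X) (G.c M) * u)) x +
        (2 * ((j : ℝ) - T.dim X)) • T.act u x := by
  refine T.kindk (P := fun u => G.c M * T.act (lp T lam u) x - T.act (lp T lam u) (G.c M * x) =
      T.act (lp T lam (T.pull (snd X X) (G.c M) * u - T.pull (fst X X) (G.c M) * u)) x +
        (2 * ((j : ℝ) - T.dim X)) • T.act u x) (by simp [T.act_zero]) ?_ ?_ hu
  · intro s t a e hs ht hst
    have h1 := eq_add_of_sub_eq (h.comm s a hs)
    have h2 := eq_add_of_sub_eq (h.comm t e ht)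
    have h3 : T.pull (snd X X) (G.c M) * (T.pull (fst X X) a * T.pull (snd X X) e) =
        T.pull (fst X X) a * T.pull (snd X X) (G.c M * e) := Frame.fst_snd_mul (G.c_deg M) a e
    have h4 : T.pull (fst X X) (G.c M) * (T.pull (fst X X) a * T.pull (snd X X) e) =
        T.pull (fst X X) (G.c M * a) * T.pull (snd X X) e := by
      rw [← mul_assoc, ← map_mul]
    have h5 : ∀ y, G.c M * x * y = x * (G.c M * y) := by
      intro y
      rw [G.c_comm M x, mul_assoc]
    rw [h3, h4, map_sub, lp_pure, lp_pure, lp_pure, T.act_add, sub_eq_add_neg,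
      sub_eq_add_neg (T.pull (fst X X) (lam a) * T.pull (snd X X) (G.c M * e) + _), T.act_add,
      T.act_add, ← neg_one_smul ℝ (T.pull (fst X X) (lam (G.c M * a)) * T.pull (snd X X) e + _),
      T.act_smul, T.act_add]
    simp only [LinearMap.add_apply, LinearMap.smul_apply, T.act_pure, mul_add, mul_smul_comm, h5,
      h1, h2, map_add, map_smul, smul_eq_mul]
    by_cases hjs : j + s = 2 * T.dim X
    · have h6 : (t : ℝ) - s = 2 * ((j : ℝ) - T.dim X) := by
        have h7 : t = j := by omega
        have h8 : (j : ℝ) + s = 2 * T.dim X := by exact_mod_cast hjs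
        rw [h7]
        linarith
      rw [← h6]
      module
    · rw [T.tr_mul_ne hx hs hjs]
      module
  · intro a e h1 h2
    have h3 : T.pull (snd X X) (G.c M) * (a + e) - T.pull (fst X X) (G.c M) * (a + e) =
        (T.pull (snd X X) (G.c M) * a - T.pull (fst X X) (G.c M) * a) +
        (T.pull (snd X X) (G.c M) * e - T.pull (fst X X) (G.c M) * e) := by
      rw [mul_add, mul_add]
      abel
    rw [h3, map_add, map_add, T.act_add, T.act_add, T.act_add, LinearMap.add_apply,
      LinearMap.add_apply, LinearMap.add_apply, LinearMap.add_apply, mul_add, smul_add,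
      add_sub_add_comm, h1, h2]
    abel

/-- hard Lefschetz for algebraic classes on `X × X` gives the standard conjecture for `X` -/
theorem lef_of_hla {X : V} (M : G.Bund X) (hA : G.HLA (G.box M M)) : G.Lef M := by
  obtain ⟨lam, hl0, hl1, hl2⟩ := G.sl2 M
  have hlam : G.IsLam M lam := ⟨hl0, hl1, hl2⟩
  rcases Nat.eq_zero_or_pos (T.dim X) with h0 | h0
  · refine ⟨0, zero_mem _, ?_⟩
    intro i a ha
    rw [T.act_zero, LinearMap.zero_apply, LinearMap.zero_apply, mul_zero, sub_zero, h0]
    rcases Nat.eq_zero_or_pos i with hi | hi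
    · rw [hi]
      simp
    · rw [T.deg_eq_zero ha (by omega), smul_zero]
  · have h1 : lp T lam (T.diag X) ∈ T.C (X ⊗ X) (T.dim X - 1) :=
      G.lam_stable hA (G.lp_isLam hlam) (T.C_of_eq (T.C_diag X) (by omega))
    refine ⟨(1 / 2 : ℝ) • lp T lam (T.diag X), Submodule.smul_mem _ _ h1, ?_⟩
    intro i a ha
    have h2 := G.act_lp hlam (T.diag_deg X) ha
    have h3 : T.pull (snd X X) (G.c M) * T.diag X - T.pull (fst X X) (G.c M) * T.diag X = 0 := by
      rw [sub_eq_zero]
      apply T.act_injective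
      apply LinearMap.ext
      intro x
      rw [T.act_snd_mul (G.c_deg M), T.act_fst_mul, T.act_diag, LinearMap.id_apply,
        LinearMap.id_apply, G.c_comm]
    rw [h3, map_zero, T.act_zero, LinearMap.zero_apply, zero_add, T.act_diag,
      LinearMap.id_apply] at h2
    rw [T.act_smul, LinearMap.smul_apply, LinearMap.smul_apply, mul_smul_comm, ← smul_sub, h2,
      smul_smul]
    congr 1
    ring

end Pol

end Pool.VHC
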