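import Pool.Agent.Work.MP_298761_vhc.Proj

/-!
The middle degrees: `L : A^m → A^{m+1}` is onto if `dim Z = 2m+1` and the sign conjecture
holds for `Z`.
-/

open CategoryTheory MonoidalCategory CartesianMonoidalCategory

universe u v w b

namespace Pool.VHC

open Pool.KC

variable {V : Type u} [Category.{v} V] [CartesianMonoidalCategory V]
variable {T : WeilTheory.{u, v, w, 0} V ℝ} (G : Pol.{u, v, w, b} T)

namespace Pol

/-- `{x ∈ H^{2m} | L^2 x = 0, L x algebraic}` -/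
def Kt {Z : V} (M : G.Bund Z) (m : ℕ) : Submodule ℝ (T.H Z) where
  carrier := {x | x ∈ T.deg Z (2 * m) ∧ G.c M * (G.c M * x) = 0 ∧ G.c M * x ∈ T.C Z (m + 1)}
  add_mem' := by
    rintro x y ⟨h1, h2, h3⟩ ⟨h4, h5, h6⟩
    refine ⟨add_mem h1 h4, ?_, ?_⟩
    · rw [mul_add, mul_add, h2, h5, add_zero]
    · rw [mul_add]
      exact add_mem h3 h6
  zero_mem' := ⟨zero_mem _, by simp, by simp⟩
  smul_mem' := by
    rintro c x ⟨h1, h2, h3⟩
    refine ⟨Submodule.smul_mem _ _ h1, ?_, ?_⟩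
    · rw [mul_smul_comm, mul_smul_comm, h2, smul_zero]
    · rw [mul_smul_comm]
      exact Submodule.smul_mem _ _ h3

/-- `tr (L x y)` -/
noncomputable def Q {Z : V} (M : G.Bund Z) : T.H Z →ₗ[ℝ] T.H Z →ₗ[ℝ] ℝ :=
  LinearMap.compr₂ (LinearMap.mul ℝ (T.H Z)) (T.tr Z ∘ₗ LinearMap.mulLeft ℝ (G.c M))

theorem Q_apply {Z : V} (M : G.Bund Z) (x y : T.H Z) :
    G.Q M x y = T.tr Z (G.c M * (x * y)) := rfl

theorem Q_apply' {Z : V} (M : G.Bund Z) (x y : T.H Z) :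
    G.Q M x y = T.tr Z (x * (G.c M * y)) := by
  rw [Q_apply, ← mul_assoc, G.c_comm, mul_assoc]

theorem Q_comm {Z : V} (M : G.Bund Z) {m : ℕ} {x : T.H Z} (hx : x ∈ T.deg Z (2 * m))
    (y : T.H Z) : G.Q M x y = G.Q M y x := by
  rw [Q_apply, Q_apply, T.even_comm hx]

theorem Kt_weil {Z : V} (M : G.Bund Z) {m : ℕ} (hn : T.dim Z = 2 * m + 1) {x : T.H Z}
    (hx : x ∈ G.Kt M m) : G.weil Z x = x := by
  rw [← sub_eq_zero]
  apply G.hard_inj M (i := 2 * m) (k := 1) (by omega) _ (sub_mem (G.weil_deg hx.1) hx.1)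
  have h1 := G.weil_alg hx.2.2
  rw [G.weil_mul, G.weil_alg (G.c_mem M)] at h1
  rw [pow_one, mul_sub, h1, sub_self]

theorem Kt_pos {Z : V} (M : G.Bund Z) {m : ℕ} (hn : T.dim Z = 2 * m + 1) {x : T.H Z}
    (hx : x ∈ G.Kt M m) (hx0 : x ≠ 0) : 0 < (-1) ^ m * G.Q M x x := by
  have h := G.hodge_riemann M (i := m) (k := 1) (by omega) x hx.1 hx0 (by
    rw [pow_two, mul_assoc]
    exact hx.2.1)
  rwa [G.Kt_weil M hn hx, pow_one] at h

/-- the orthogonal complement of the algebraic classes -/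
def K0 {Z : V} (M : G.Bund Z) (m : ℕ) : Submodule ℝ (T.H Z) where
  carrier := {x | x ∈ G.Kt M m ∧ ∀ y ∈ G.Kt M m, y ∈ T.C Z m → G.Q M x y = 0}
  add_mem' := by
    rintro x y ⟨h1, h2⟩ ⟨h3, h4⟩
    refine ⟨add_mem h1 h3, fun z hz hz' => ?_⟩
    rw [map_add, LinearMap.add_apply, h2 z hz hz', h4 z hz hz', add_zero]
  zero_mem' := ⟨zero_mem _, fun z _ _ => by simp⟩
  smul_mem' := by
    rintro c x ⟨h1, h2⟩
    refine ⟨Submodule.smul_mem _ _ h1, fun z hz hz' => ?_⟩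
    rw [map_smul, LinearMap.smul_apply, h2 z hz hz', smul_zero]

theorem exists_onb {Z : V} (M : G.Bund Z) {m : ℕ} (hn : T.dim Z = 2 * m + 1)
    (F : Submodule ℝ (T.H Z)) (hF : F ≤ G.Kt M m) :
    ∃ (r : ℕ) (g : Fin r → T.H Z), (∀ i, g i ∈ F) ∧ Frame G M m r g ∧
      ∀ x ∈ F, ∑ i, ((-1) ^ m * G.Q M x (g i)) • g i = x := by
  obtain ⟨r, g, h1, h2, h3⟩ := exists_on F (G.Q M)
    (fun x hx y _ => G.Q_comm M (hF hx).1 y) ((-1) ^ m) (Frame.sign_mul m)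
    (fun x hx hx0 => G.Kt_pos M hn (hF hx) hx0)
  exact ⟨r, g, h1, ⟨hn, fun i => (hF (h1 i)).1, fun i => (hF (h1 i)).2.1,
    fun i => (hF (h1 i)).2.2, fun i j => h2 i j⟩, h3⟩

/-- if `K0 = 0` then all of `Kt` is algebraic -/
theorem Kt_le {Z : V} (M : G.Bund Z) {m : ℕ} (hn : T.dim Z = 2 * m + 1)
    (h0 : ∀ x ∈ G.K0 M m, x = 0) {x : T.H Z} (hx : x ∈ G.Kt M m) : x ∈ T.C Z m := by
  obtain ⟨r, g, h1, h2, h3⟩ := G.exists_onb M hn (G.Kt M m ⊓ T.C Z m) inf_le_left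
  have h4 : x - ∑ i, ((-1) ^ m * G.Q M x (g i)) • g i ∈ G.K0 M m := by
    refine ⟨sub_mem hx (sum_mem fun i _ => Submodule.smul_mem _ _ (h1 i).1), fun y hy hy' => ?_⟩
    rw [map_sub, LinearMap.sub_apply, map_sum, LinearMap.sum_apply, sub_eq_zero]
    conv_lhs => rw [← h3 y ⟨hy, hy'⟩, map_sum]
    refine Finset.sum_congr rfl fun i _ => ?_
    rw [map_smul, map_smul, LinearMap.smul_apply, G.Q_comm M hy.1, smul_eq_mul, smul_eq_mul]
    ring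
  have h5 := sub_eq_zero.mp (h0 _ h4)
  rw [h5]
  exact sum_mem fun i _ => Submodule.smul_mem _ _ (h1 i).2

end Pol

end Pool.VHC
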