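import Pool.Agent.Work.MP_a60482_kc.Descend

/-!
Operators attached to correspondences, transposition, push-forward along morphisms.
-/

open CategoryTheory MonoidalCategory CartesianMonoidalCategory

universe u v w x

namespace Pool.KC

namespace Cohomology

variable {V : Type u} [Category.{v} V] [CartesianMonoidalCategory V] {K : Type x} [Field K]
variable (T : Cohomology.{u, v, w, x} V K)

theorem nondeg' {X : V} {d : T.H X} (hd : ∀ b, T.tr X (d * b) = 0) : d = 0 := by
  apply T.ext_proj
  intro m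
  rw [map_zero]
  apply T.eq_zero_of_deg (T.proj_mem m d)
  intro l hl c hc
  have h3 : T.tr X (T.proj X m d * c) = 0 := by
    rw [T.tr_mul_proj d hc hl]
    exact hd c
  rw [T.comm hc (T.proj_mem m d), T.neg_pow_smul, map_smul, h3, smul_zero]

theorem deg_of_eq {X : V} {i j : ℕ} {a : T.H X} (ha : a ∈ T.deg X i) (h : i = j) :
    a ∈ T.deg X j := h ▸ ha

/-- induction on classes of given degree on a product -/
theorem kindk {X Y : V} {k : ℕ} {P : T.H (X ⊗ Y) → Prop} (h0 : P 0)
    (hh : ∀ (i j : ℕ) (a : T.H X) (b : T.H Y), a ∈ T.deg X i → b ∈ T.deg Y j → i + j = k →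
      P (T.pull (fst X Y) a * T.pull (snd X Y) b))
    (ha : ∀ a b, P a → P b → P (a + b)) {z : T.H (X ⊗ Y)} (hz : z ∈ T.deg (X ⊗ Y) k) : P z := by
  rw [← T.proj_same hz]
  refine T.kind' (P := fun z => P (T.proj (X ⊗ Y) k z)) (by simpa using h0) ?_ ?_ z
  · intro i j a b hai hbj
    have hab : T.pull (fst X Y) a * T.pull (snd X Y) b ∈ T.deg (X ⊗ Y) (i + j) :=
      T.mul_deg (T.fst_deg hai) (T.snd_deg hbj)
    by_cases h : i + j = k
    · subst h
      rw [T.proj_same hab]
      exact hh i j a b hai hbj rfl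
    · rw [T.proj_ne hab h]
      exact h0
  · intro a b h1 h2
    rw [map_add]
    exact ha _ _ h1 h2

theorem act_fst_mul {X Y : V} (l : T.H X) (z : T.H (X ⊗ Y)) (a : T.H X) :
    T.act (T.pull (fst X Y) l * z) a = T.act z (a * l) := by
  rw [T.act_apply, T.act_apply, ← mul_assoc, ← map_mul]

theorem act_snd_mul {X Y : V} {i : ℕ} {l : T.H Y} (hl : l ∈ T.deg Y (2 * i)) (z : T.H (X ⊗ Y))
    (a : T.H X) : T.act (T.pull (snd X Y) l * z) a = l * T.act z a := by
  rw [T.act_apply, T.act_apply, ← mul_assoc, ← T.even_comm (T.snd_deg hl), mul_assoc,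
    T.push_snd_mul]

/-- exchange of factors -/
abbrev sw (X Y : V) : Y ⊗ X ⟶ X ⊗ Y := lift (snd Y X) (fst Y X)

def swIso (X Y : V) : Y ⊗ X ≅ X ⊗ Y where
  hom := sw X Y
  inv := sw Y X
  hom_inv_id := by ext <;> simp [sw]
  inv_hom_id := by ext <;> simp [sw]

theorem tr_sw {X Y : V} (z : T.H (X ⊗ Y)) : T.tr (Y ⊗ X) (T.pull (sw X Y) z) = T.tr (X ⊗ Y) z :=
  T.tr_iso (swIso X Y) z

/-- transposition -/
theorem tr_act_sw {X Y : V} {i j : ℕ} (z : T.H (X ⊗ Y)) {a : T.H X} {b : T.H Y}
    (ha : a ∈ T.deg X (2 * i)) (hb : b ∈ T.deg Y (2 * j)) :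
    T.tr Y (T.act z a * b) = T.tr X (T.act (T.pull (sw X Y) z) b * a) := by
  rw [T.tr_act, T.tr_act, ← T.tr_sw]
  congr 1
  simp only [map_mul, T.pull_comp', lift_fst, lift_snd]
  rw [← T.even_comm (T.fst_deg (Y := X) hb), T.even_comm (T.snd_deg (X := Y) ha), mul_assoc]

theorem tr_even_comm {X : V} {i : ℕ} {a : T.H X} (ha : a ∈ T.deg X (2 * i)) (b : T.H X) :
    T.tr X (a * b) = T.tr X (b * a) := by rw [T.even_comm ha]

/-- base change -/
theorem act_pull_snd {X Y Z : V} (f : Z ⟶ Y) (z : T.H (X ⊗ Y)) (a : T.H X) :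
    T.act (T.pull (lift (fst X Z) (snd X Z ≫ f)) z) a = T.pull f (T.act z a) := by
  refine T.kind (P := fun z => T.act (T.pull (lift (fst X Z) (snd X Z ≫ f)) z) a =
    T.pull f (T.act z a)) (by simp [act_zero]) ?_ ?_ z
  · intro p q
    rw [map_mul, T.pull_comp', T.pull_comp', lift_fst, lift_snd, T.pull_comp (snd X Z) f,
      T.act_pure, T.act_pure, map_smul]
  · intro p q h1 h2
    rw [map_add, T.act_add, T.act_add, LinearMap.add_apply, LinearMap.add_apply, map_add, h1, h2]

end Cohomology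

namespace WeilTheory

variable {V : Type u} [Category.{v} V] [CartesianMonoidalCategory V] {K : Type x} [Field K]
variable (T : WeilTheory.{u, v, w, x} V K)

theorem C_of_eq {X : V} {i j : ℕ} {a : T.H X} (ha : a ∈ T.C X i) (h : i = j) : a ∈ T.C X j :=
  h ▸ ha

/-- an algebraic correspondence maps algebraic classes to algebraic classes -/
theorem act_mem {X Y : V} {i j k : ℕ} {z : T.H (X ⊗ Y)} (hz : z ∈ T.C (X ⊗ Y) k) {a : T.H X}
    (ha : a ∈ T.C X j) (h : j + k = T.dim X + i) : T.act z a ∈ T.C Y i := by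
  rw [T.act_apply]
  apply T.C_push
  exact T.C_of_eq (T.C_mul (T.C_pull _ ha) hz) h

theorem C_pow {X : V} {a : T.H X} (ha : a ∈ T.C X 1) (k : ℕ) : a ^ k ∈ T.C X k := by
  induction k with
  | zero => rw [pow_zero]; exact T.C_one X
  | succ k ih => rw [pow_succ]; exact T.C_mul ih ha

theorem C_eq_zero {X : V} {i : ℕ} {a : T.H X} (ha : a ∈ T.C X i) (h : T.dim X < i) : a = 0 :=
  T.deg_eq_zero (T.C_deg _ _ ha) (by omega)

/-- the graph class of `f`, on `Y × X` -/
noncomputable def graph {Y X : V} (f : Y ⟶ X) : T.H (Y ⊗ X) :=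
  T.pull (lift (fst Y X ≫ f) (snd Y X)) (T.diag X)

theorem graph_mem {Y X : V} (f : Y ⟶ X) : T.graph f ∈ T.C (Y ⊗ X) (T.dim X) :=
  T.C_pull _ (T.C_diag X)

/-- push-forward along `f` -/
noncomputable def gys {Y X : V} (f : Y ⟶ X) : T.H Y →ₗ[K] T.H X := T.act (T.graph f)

theorem gys_mem {Y X : V} (f : Y ⟶ X) {i j : ℕ} {y : T.H Y} (hy : y ∈ T.C Y j)
    (h : j + T.dim X = T.dim Y + i) : T.gys f y ∈ T.C X i :=
  T.act_mem (T.graph_mem f) hy h

/-- projection formula -/
theorem tr_gys {Y X : V} (f : Y ⟶ X) {j : ℕ} {y : T.H Y} (hy : y ∈ T.deg Y (2 * j)) (x : T.H X) :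
    T.tr X (T.gys f y * x) = T.tr Y (y * T.pull f x) := by
  refine T.hind (P := fun x => T.tr X (T.gys f y * x) = T.tr Y (y * T.pull f x)) (by simp)
    ?_ ?_ x
  · intro i x hx
    by_cases hi : Even i
    · obtain ⟨i, rfl⟩ := hi
      rw [← two_mul] at hx
      unfold gys
      rw [T.tr_act_sw _ hy hx]
      have h1 : T.pull (Cohomology.sw Y X) (T.graph f) =
          T.pull (lift (fst X Y) (snd X Y ≫ f)) (T.diag X) := by
        unfold graph
        rw [T.pull_comp']
        nth_rw 1 [← T.swap_diag X]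
        rw [T.pull_comp']
        congr 2
        ext <;> simp [Cohomology.sw, Cohomology.swap]
      rw [h1, T.act_pull_snd, T.act_diag, LinearMap.id_apply, T.tr_even_comm hy]
    · have h2 : ¬ (2 * j + i = 2 * T.dim Y) := by
        intro h
        apply hi
        exact ⟨T.dim Y - j, by omega⟩
      rw [T.tr_mul_ne hy (T.pull_deg f hx) h2]
      unfold gys
      rw [T.act_apply]
      by_cases h3 : T.dim Y ≤ j + T.dim X
      · have h4 : T.push Y X (T.pull (fst Y X) y * T.graph f) ∈
            T.deg X (2 * (j + T.dim X - T.dim Y)) := by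
          refine T.push_deg (T.mul_deg (T.fst_deg hy) (T.C_deg _ _ (T.graph_mem f))) ?_
          omega
        refine T.tr_mul_ne h4 hx ?_
        intro h
        apply hi
        exact ⟨T.dim X - (j + T.dim X - T.dim Y), by omega⟩
      · have h5 : T.push Y X (T.pull (fst Y X) y * T.graph f) = 0 := by
          apply T.nondeg
          intro b
          rw [← T.push_snd_mul, T.tr_push]
          refine T.hind (P := fun b => T.tr (Y ⊗ X) (T.pull (snd Y X) b *
            (T.pull (fst Y X) y * T.graph f)) = 0) (by simp) ?_ ?_ b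
          · intro l b hb
            by_cases hl : l ≤ 2 * T.dim X
            · refine T.tr_mul_ne (T.snd_deg hb)
                (T.mul_deg (T.fst_deg hy) (T.C_deg _ _ (T.graph_mem f))) ?_
              rw [T.dim_prod]
              omega
            · rw [T.deg_eq_zero hb (by omega)]
              simp
          · intro b c h6 h7
            rw [map_add, add_mul, map_add, h6, h7, add_zero]
        rw [h5]
        simp
  · intro a b h1 h2
    rw [mul_add, map_add, h1, h2, map_add, mul_add, map_add]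

end WeilTheory

end Pool.KC
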