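import Pool.Agent.Work.MP_298761_vhc.Skew

/-!
The projector attached to a suitable orthonormal family is algebraic.
-/

open CategoryTheory MonoidalCategory CartesianMonoidalCategory Polynomial

universe u v w b

namespace Pool.VHC

open Pool.KC

variable {V : Type u} [Category.{v} V] [CartesianMonoidalCategory V]
variable {T : WeilTheory.{u, v, w, 0} V ℝ}

theorem end_ext {Z : V} {f g : Module.End ℝ (T.H Z)}
    (h0 : ∀ (i : ℕ), ∀ x ∈ T.deg Z (2 * i), f x = g x)
    (h1 : ∀ (i : ℕ), ∀ x ∈ T.deg Z (2 * i + 1), f x = g x) : f = g := by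
  apply LinearMap.ext
  intro x
  refine T.hind (P := fun x => f x = g x) (by simp) ?_ ?_ x
  · intro i x hx
    rcases Nat.even_or_odd' i with ⟨j, rfl | rfl⟩
    · exact h0 j x hx
    · exact h1 j x hx
  · intro a e h2 h3
    rw [map_add, map_add, h2, h3]

theorem aeval_mem_ops {Z : V} {B : Module.End ℝ (T.H Z)} (hB : B ∈ T.ops Z) (f : ℝ[X]) :
    aeval B f ∈ T.ops Z := by
  induction f using Polynomial.induction_on' with
  | add p q hp hq => rw [map_add]; exact add_mem hp hq
  | monomial n a =>
    rw [aeval_monomial]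
    exact mul_mem (Subalgebra.algebraMap_mem _ _) (pow_mem hB n)

theorem aeval_comm {E : Type*} [AddCommGroup E] [Module ℝ E] {B e : Module.End ℝ E}
    (he : ∀ x, B (e x) = e (B x)) (f : ℝ[X]) (x : E) : aeval B f (e x) = e (aeval B f x) := by
  have h3 : Commute B e := by
    apply LinearMap.ext
    intro x
    exact he x
  have : aeval B f * e = e * aeval B f := by
    induction f using Polynomial.induction_on' with
    | add p q hp hq => rw [map_add, add_mul, mul_add, hp, hq]
    | monomial n a =>
      rw [aeval_monomial, mul_assoc, (h3.pow_left n).eq, ← mul_assoc, Algebra.commutes, mul_assoc]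
  exact congrArg (fun q : Module.End ℝ E => q x) this

theorem aeval_lin {E : Type*} [AddCommGroup E] [Module ℝ E] (B : Module.End ℝ E) (r c : ℝ)
    (x : E) : aeval B (C r * (X + C c)) x = r • (B x + c • x) := by
  simp only [map_mul, map_add, aeval_X, aeval_C, Module.End.mul_apply, LinearMap.add_apply,
    Module.algebraMap_end_apply, smul_add]

theorem aeval_quad {E : Type*} [AddCommGroup E] [Module ℝ E] (B : Module.End ℝ E) (r a c : ℝ)
    (x : E) : aeval B (C r * (X ^ 2 + C a * X + C c)) x = r • (B (B x) + a • B x + c • x) := by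
  simp only [map_mul, map_add, map_pow, aeval_X, aeval_C, Module.End.mul_apply, pow_two,
    LinearMap.add_apply, Module.algebraMap_end_apply, smul_add]

/-- algebraic part: if `B` is algebraic, and `B - π/2` is skew and commutes with `π` on even
classes, then `π` is algebraic -/
theorem pi_mem_ops {G : Pol.{u, v, w, b} T} {Z : V} {M : G.Bund Z} {m r : ℕ}
    {g : Fin r → T.H Z} (h : Frame G M m r g) (hs : Sign T Z) {B S : Module.End ℝ (T.H Z)}
    (hB : B ∈ T.ops Z) (hBS : ∀ x, B x = S x + (1 / 2 : ℝ) • Frame.pi T m (G.c M) g x)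
    (hS : Skew G M S)
    (hc : ∀ (i : ℕ), ∀ x ∈ T.deg Z (2 * i),
      Frame.pi T m (G.c M) g (S x) = S (Frame.pi T m (G.c M) g x)) :
    Frame.pi T m (G.c M) g ∈ T.ops Z := by
  obtain ⟨z, hz, hz0, hz1⟩ := hs
  set q := Frame.pi T m (G.c M) g with hq
  set e : Module.End ℝ (T.H Z) := T.act z with he
  have hzo : e ∈ T.ops Z := ⟨z, hz, rfl⟩
  have hqq : ∀ x, q (q x) = q x := fun x => congrArg (fun t : Module.End ℝ (T.H Z) => t x) h.pi_pi
  have hqd : ∀ {i : ℕ} {x : T.H Z}, x ∈ T.deg Z i → q x ∈ T.deg Z i := fun hx => h.pi_deg hx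
  have hqodd : ∀ (i : ℕ), ∀ x ∈ T.deg Z (2 * i + 1), q x = 0 := fun i x hx => h.pi_odd hx
  have hBd : ∀ {i : ℕ} {x : T.H Z}, x ∈ T.deg Z i → B x ∈ T.deg Z i := fun hx =>
    T.ops_deg hB hx
  have hBq : ∀ (i : ℕ), ∀ x ∈ T.deg Z (2 * i), B (q x) = q (B x) := by
    intro i x hx
    rw [hBS, hBS x, map_add, map_smul, hqq, hc i x hx]
  have heq : e * q = q := by
    refine end_ext ?_ ?_
    · intro i x hx
      exact hz0 i _ (hqd hx)
    · intro i x hx
      rw [Module.End.mul_apply, hqodd i x hx, map_zero]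
  have hqe : q * e = q := by
    refine end_ext ?_ ?_
    · intro i x hx
      rw [Module.End.mul_apply, hz0 i x hx]
    · intro i x hx
      rw [Module.End.mul_apply, hz1 i x hx, map_zero, hqodd i x hx]
  have hee : e * e = e := by
    refine end_ext ?_ ?_
    · intro i x hx
      rw [Module.End.mul_apply, hz0 i x hx, hz0 i x hx]
    · intro i x hx
      rw [Module.End.mul_apply, hz1 i x hx, map_zero]
  have hqq' : q * q = q := h.pi_pi
  have hBe : B * e = e * B := by
    refine end_ext ?_ ?_
    · intro i x hx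
      rw [Module.End.mul_apply, Module.End.mul_apply, hz0 i x hx, hz0 i _ (hBd hx)]
    · intro i x hx
      rw [Module.End.mul_apply, Module.End.mul_apply, hz1 i x hx, hz1 i _ (hBd hx), map_zero]
  have hBq' : B * q = q * B := by
    refine end_ext ?_ ?_
    · intro i x hx
      exact hBq i x hx
    · intro i x hx
      rw [Module.End.mul_apply, Module.End.mul_apply, hqodd i x hx, hqodd i _ (hBd hx), map_zero]
  obtain ⟨f, hf1, hf2⟩ := exists_poly B (e - q) q (by
      rw [sub_mul, mul_sub, mul_sub, hee, heq, hqe, hqq']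
      abel) hqq' (by rw [mul_sub, sub_mul, hBe, hBq']) hBq' (by
    intro p hp v hv hv1 hv2 w hw hw1 hw2
    -- homogeneous components
    have hcomp : ∀ x : T.H Z, x ≠ 0 → ∃ j, T.proj Z j x ≠ 0 := by
      intro x hx
      by_contra hcon
      push Not at hcon
      apply hx
      apply T.ext_proj
      intro j
      rw [hcon j, map_zero]
    have hBp : ∀ j x, B (T.proj Z j x) = T.proj Z j (B x) := by
      intro j x
      exact congrArg (fun t : Module.End ℝ (T.H Z) => t x) (T.ops_mul_proj hB j)
    have hep : ∀ j x, e (T.proj Z j x) = T.proj Z j (e x) := by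
      intro j x
      exact congrArg (fun t : Module.End ℝ (T.H Z) => t x) (T.ops_mul_proj hzo j)
    have hqp : ∀ j x, q (T.proj Z j x) = T.proj Z j (q x) := by
      intro j x
      refine T.hind (P := fun x => q (T.proj Z j x) = T.proj Z j (q x)) (by simp) ?_ ?_ x
      · intro k a ha
        by_cases hk : k = j
        · subst hk
          rw [T.proj_same ha, T.proj_same (hqd ha)]
        · rw [T.proj_ne ha hk, T.proj_ne (hqd ha) hk, map_zero]
      · intro a b h1 h2
        simp only [map_add, h1, h2]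
    obtain ⟨v', j, hv'0, hv'd, hv'q, hv'p⟩ : ∃ v' j, v' ≠ 0 ∧ v' ∈ T.deg Z (2 * j) ∧ q v' = 0 ∧
        aeval B p v' = 0 := by
      obtain ⟨j, hj⟩ := hcomp v hv
      have h1 : e (T.proj Z j v) - q (T.proj Z j v) = T.proj Z j v := by
        rw [hep, hqp, ← map_sub]
        congr 1
      have h2 : aeval B p (T.proj Z j v) = 0 := by
        rw [aeval_comm (hBp j), hv2, map_zero]
      have h3 := T.proj_mem j v
      rcases Nat.even_or_odd' j with ⟨j, rfl | rfl⟩
      · refine ⟨_, j, hj, h3, ?_, h2⟩
        rw [hz0 j _ h3] at h1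
        exact sub_eq_self.mp h1
      · rw [hz1 j _ h3, hqodd j _ h3, sub_zero] at h1
        exact absurd h1.symm hj
    obtain ⟨w', j', hw'0, hw'd, hw'q, hw'p⟩ : ∃ w' j, w' ≠ 0 ∧ w' ∈ T.deg Z (2 * j) ∧
        q w' = w' ∧ aeval B p w' = 0 := by
      obtain ⟨j, hj⟩ := hcomp w hw
      have h1 : q (T.proj Z j w) = T.proj Z j w := by
        rw [hqp, hw1]
      have h2 : aeval B p (T.proj Z j w) = 0 := by
        rw [aeval_comm (hBp j), hw2, map_zero]
      have h3 := T.proj_mem j w
      rcases Nat.even_or_odd' j with ⟨j, rfl | rfl⟩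
      · exact ⟨_, j, hj, h3, h1, h2⟩
      · rw [hqodd j _ h3] at h1
        exact absurd h1.symm hj
    have bv : B v' = S v' := by rw [hBS, hv'q, smul_zero, add_zero]
    have bbv : B (B v') = S (S v') := by
      rw [bv, hBS, hc j v' hv'd, hv'q, map_zero, smul_zero, add_zero]
    have bw : B w' = S w' + (1 / 2 : ℝ) • w' := by rw [hBS, hw'q]
    have bbw : B (B w') = S (S w') + S w' + (1 / 4 : ℝ) • w' := by
      have h1 : B (S w') = S (S w') + (1 / 2 : ℝ) • S w' := by
        rw [hBS, hc j' w' hw'd, hw'q]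
      rw [bw, map_add, map_smul, h1, bw, smul_add, smul_smul]
      module
    rcases irreducible_cases hp with ⟨r', c, hr, rfl⟩ | ⟨r', a, c, hr, rfl, hroot⟩
    · rw [aeval_lin] at hv'p hw'p
      have h1 := (smul_eq_zero.mp hv'p).resolve_left hr
      have h2 := (smul_eq_zero.mp hw'p).resolve_left hr
      rw [bv] at h1
      rw [bw] at h2
      have h3 := hS.no_eigen h.dim hv'd hv'0 h1
      have h4 := hS.no_eigen h.dim hw'd hw'0 (c := 1 / 2 + c) (by
        rw [add_smul, ← add_assoc]
        exact h2)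
      rw [h3] at h4
      norm_num at h4
    · rw [aeval_quad] at hv'p hw'p
      have h1 := (smul_eq_zero.mp hv'p).resolve_left hr
      have h2 := (smul_eq_zero.mp hw'p).resolve_left hr
      rw [bbv, bv] at h1
      rw [bbw, bw] at h2
      have h3 := hS.no_pair h.dim hv'd hv'0 h1
      have h4 := hS.no_pair h.dim hw'd hw'0 (a := 1 + a) (c := 1 / 4 + a / 2 + c) (by
        rw [← h2]
        module)
      rcases h3 with h3 | h3
      · rcases h4 with h4 | h4
        · rw [h3] at h4
          norm_num at h4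
        · apply hroot (1 / 2)
          rw [h3] at h4 ⊢
          linarith
      · apply hroot 0
        rw [h3]
        ring)
  have h1 : q = aeval B f * e := by
    have : e = (e - q) + q := by abel
    rw [this, mul_add, hf1, hf2, zero_add]
  rw [h1]
  exact mul_mem (aeval_mem_ops hB f) hzo

end Pool.VHC
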