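import Pool.Agent.Work.MP_298761_vhc.Frame

/-!
Operators which anticommute with `L`, are symmetric for the trace form on even classes and
commute with the Weil operator have no nonzero real eigenvalues on even classes (odd
dimension).
-/

open CategoryTheory MonoidalCategory CartesianMonoidalCategory

universe u v w b

namespace Pool.VHC

open Pool.KC

variable {V : Type u} [Category.{v} V] [CartesianMonoidalCategory V]
variable {T : WeilTheory.{u, v, w, 0} V ℝ}

/-- `S` anticommutes with `L`, is symmetric on even classes, commutes with the Weil operator -/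
structure Skew (G : Pol.{u, v, w, b} T) {Z : V} (M : G.Bund Z)
    (S : Module.End ℝ (T.H Z)) : Prop where
  deg : ∀ {i : ℕ} {x : T.H Z}, x ∈ T.deg Z i → S x ∈ T.deg Z i
  anti : ∀ x, G.c M * S x = - S (G.c M * x)
  sym : ∀ {i j : ℕ} {x y : T.H Z}, x ∈ T.deg Z (2 * i) → y ∈ T.deg Z (2 * j) →
    T.tr Z (S x * y) = T.tr Z (x * S y)
  weil : ∀ x, G.weil Z (S x) = S (G.weil Z x)

namespace Skew

variable {G : Pol.{u, v, w, b} T} {Z : V} {M : G.Bund Z} {S : Module.End ℝ (T.H Z)}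

theorem anti_pow (h : Skew G M S) (k : ℕ) (x : T.H Z) :
    S (G.c M ^ k * x) = (-1 : ℝ) ^ k • (G.c M ^ k * S x) := by
  induction k with
  | zero => simp
  | succ k ih =>
    have h1 : S (G.c M * (G.c M ^ k * x)) = - (G.c M * S (G.c M ^ k * x)) := by
      rw [h.anti, neg_neg]
    rw [pow_succ', mul_assoc, h1, ih, mul_smul_comm, ← mul_assoc, pow_succ', mul_smul,
      neg_one_smul]

/-- the form `tr (L^k x C x)` -/
theorem form_skew (h : Skew G M S) {i k : ℕ} (hk : Odd k) {y : T.H Z}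
    (hy : y ∈ T.deg Z (2 * i)) : T.tr Z (G.c M ^ k * (S y * G.weil Z y)) = 0 := by
  have hneg : (-1 : ℝ) ^ k = -1 := hk.neg_one_pow
  have hSy : S y ∈ T.deg Z (2 * i) := h.deg hy
  have hWy : G.weil Z y ∈ T.deg Z (2 * i) := G.weil_deg hy
  have hLy : G.c M ^ k * y ∈ T.deg Z (2 * (k + i)) := by
    refine T.deg_of_eq (T.mul_deg (T.C_deg _ _ (G.c_pow_mem M k)) hy) (by omega)
  have e1 : G.c M ^ k * (S y * G.weil Z y) = - (S (G.c M ^ k * y) * G.weil Z y) := by
    rw [h.anti_pow, hneg, neg_one_smul, neg_mul, neg_neg, mul_assoc]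
  have e2 : T.tr Z (S (G.c M ^ k * y) * G.weil Z y) =
      T.tr Z (G.c M ^ k * (y * S (G.weil Z y))) := by
    rw [h.sym hLy hWy, mul_assoc]
  have e3 : T.tr Z (G.c M ^ k * (y * S (G.weil Z y))) =
      T.tr Z (G.c M ^ k * (S y * G.weil Z y)) := by
    rw [← G.weil_tr (G.c M ^ k * (y * S (G.weil Z y))), G.weil_mul, G.weil_mul, h.weil,
      G.weil_sq hy, G.weil_alg (G.c_pow_mem M k), T.even_comm hWy]
  rw [e1, map_neg, e2, e3]
  have := congrArg (T.tr Z) e1
  rw [map_neg, e2, e3] at this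
  linarith

theorem exists_top (v : T.H Z) (hv : v ≠ 0) (M : G.Bund Z) :
    ∃ r, G.c M ^ r * v ≠ 0 ∧ G.c M * (G.c M ^ r * v) = 0 := by
  classical
  have hex : ∃ N, G.c M ^ N * v = 0 := by
    refine ⟨T.dim Z + 1, ?_⟩
    rw [T.C_eq_zero (G.c_pow_mem M (T.dim Z + 1)) (by omega), zero_mul]
  have h1 := Nat.find_spec hex
  have h2 : Nat.find hex ≠ 0 := by
    intro h
    rw [h, pow_zero, one_mul] at h1
    exact hv h1
  obtain ⟨r, hr⟩ := Nat.exists_eq_succ_of_ne_zero h2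
  refine ⟨r, Nat.find_min hex (by omega), ?_⟩
  rw [← mul_assoc, ← pow_succ', ← Nat.succ_eq_add_one, ← hr, h1]

theorem exists_prim {m : ℕ} (hn : T.dim Z = 2 * m + 1) {t : ℕ} {x : T.H Z}
    (hx : x ∈ T.deg Z (2 * t)) (hx0 : x ≠ 0) (hL : G.c M * x = 0) :
    ∃ i k y, 2 * i + k = T.dim Z ∧ Odd k ∧ y ∈ T.deg Z (2 * i) ∧ G.c M ^ k * y = x ∧
      G.c M ^ (k + 1) * y = 0 ∧ y ≠ 0 := by
  have h1 : m + 1 ≤ t := by
    by_contra h
    apply hx0
    obtain ⟨k, hk⟩ : ∃ k, 2 * t + (k + 1) = T.dim Z := ⟨2 * m - 2 * t, by omega⟩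
    apply G.hard_inj M hk x hx
    rw [pow_succ, mul_assoc, hL, mul_zero]
  have h2 : t ≤ 2 * m + 1 := by
    by_contra h
    exact hx0 (T.deg_eq_zero hx (by omega))
  obtain ⟨y, hy, hyx⟩ := G.hard_surj M (i := 2 * (2 * m + 1 - t)) (k := 2 * t - (2 * m + 1))
    (by omega) x (T.deg_of_eq hx (by omega))
  refine ⟨2 * m + 1 - t, 2 * t - (2 * m + 1), y, by omega, ⟨t - m - 1, by omega⟩, hy, hyx, ?_, ?_⟩
  · rw [pow_succ', mul_assoc, hyx, hL]
  · rintro rfl
    rw [mul_zero] at hyx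
    exact hx0 hyx.symm

theorem no_eigen (h : Skew G M S) {m : ℕ} (hn : T.dim Z = 2 * m + 1) {j : ℕ} {x : T.H Z}
    (hx : x ∈ T.deg Z (2 * j)) (hx0 : x ≠ 0) {c : ℝ} (he : S x + c • x = 0) : c = 0 := by
  obtain ⟨r, hr, hr'⟩ := exists_top x hx0 M
  have hxr : G.c M ^ r * x ∈ T.deg Z (2 * (r + j)) :=
    T.deg_of_eq (T.mul_deg (T.C_deg _ _ (G.c_pow_mem M r)) hx) (by omega)
  obtain ⟨i, k, y, hik, hk, hy, hyx, hy1, hy0⟩ := exists_prim hn hxr hr hr'
  have hneg : (-1 : ℝ) ^ k = -1 := hk.neg_one_pow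
  have h2 : G.c M ^ k * S y = - S (G.c M ^ k * y) := by
    rw [h.anti_pow, hneg, neg_one_smul, neg_neg]
  have h3 : S (G.c M ^ r * x) = (-1 : ℝ) ^ r • (- c • (G.c M ^ r * x)) := by
    rw [h.anti_pow, eq_neg_of_add_eq_zero_left he, mul_neg, mul_smul_comm, neg_smul]
  have h4 : S y = ((-1 : ℝ) ^ r * c) • y := by
    rw [← sub_eq_zero]
    apply G.hard_inj M hik _ (sub_mem (h.deg hy) (Submodule.smul_mem _ _ hy))
    rw [mul_sub, h2, hyx, h3, mul_smul_comm, hyx, smul_smul]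
    rw [← neg_smul, ← sub_smul]
    have : -((-1) ^ r * -c) - (-1) ^ r * c = (0 : ℝ) := by ring
    rw [this, zero_smul]
  have h5 := h.form_skew hk hy
  rw [h4, smul_mul_assoc, mul_smul_comm, map_smul, smul_eq_mul] at h5
  have h6 := G.hodge_riemann M hik y hy hy0 hy1
  have h7 : T.tr Z (G.c M ^ k * (y * G.weil Z y)) ≠ 0 := by
    intro h8
    rw [h8, mul_zero] at h6
    exact lt_irrefl _ h6
  have h8 := (mul_eq_zero.mp h5).resolve_right h7
  have h9 : ((-1 : ℝ) ^ r) ≠ 0 := pow_ne_zero _ (by norm_num)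
  exact (mul_eq_zero.mp h8).resolve_left h9

theorem no_pair (h : Skew G M S) {m : ℕ} (hn : T.dim Z = 2 * m + 1) {j : ℕ} {x : T.H Z}
    (hx : x ∈ T.deg Z (2 * j)) (hx0 : x ≠ 0) {a c : ℝ} (he : S (S x) + a • S x + c • x = 0) :
    a = 0 ∨ c = 0 := by
  obtain ⟨r, hr, hr'⟩ := exists_top x hx0 M
  have hxr : G.c M ^ r * x ∈ T.deg Z (2 * (r + j)) :=
    T.deg_of_eq (T.mul_deg (T.C_deg _ _ (G.c_pow_mem M r)) hx) (by omega)
  obtain ⟨i, k, y, hik, hk, hy, hyx, hy1, hy0⟩ := exists_prim hn hxr hr hr'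
  have hneg : (-1 : ℝ) ^ k = -1 := hk.neg_one_pow
  have hs : ((-1 : ℝ) ^ r) * (-1) ^ r = 1 := Frame.sign_mul r
  set s : ℝ := (-1 : ℝ) ^ r with hsdef
  have h2 : ∀ y, G.c M ^ k * S y = - S (G.c M ^ k * y) := by
    intro y
    rw [h.anti_pow, hneg, neg_one_smul, neg_neg]
  have h3 : S (S (G.c M ^ r * x)) + (s * a) • S (G.c M ^ r * x) + c • (G.c M ^ r * x) = 0 := by
    have e1 : S (G.c M ^ r * x) = s • (G.c M ^ r * S x) := h.anti_pow r x
    have e2 : S (S (G.c M ^ r * x)) = G.c M ^ r * S (S x) := by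
      rw [e1, map_smul, h.anti_pow, smul_smul, hs, one_smul]
    rw [e2, e1, smul_smul]
    have : s * a * s = a := by
      rw [mul_comm s a, mul_assoc, hs, mul_one]
    rw [this, ← mul_smul_comm, ← mul_smul_comm, ← mul_add, ← mul_add, he, mul_zero]
  have h4 : S (S y) - (s * a) • S y + c • y = 0 := by
    apply G.hard_inj M hik
    · exact add_mem (sub_mem (h.deg (h.deg hy)) (Submodule.smul_mem _ _ (h.deg hy)))
        (Submodule.smul_mem _ _ hy)
    · rw [mul_add, mul_sub, h2, h2, map_neg, neg_neg, mul_smul_comm, h2, mul_smul_comm,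
        hyx, smul_neg, sub_neg_eq_add]
      exact h3
  -- pair with `S y`
  have hSy1 : G.c M ^ (k + 1) * S y = 0 := by
    have := h.anti_pow (k + 1) y
    rw [hy1, map_zero] at this
    have h9 : ((-1 : ℝ) ^ (k + 1)) ≠ 0 := pow_ne_zero _ (by norm_num)
    exact (smul_eq_zero.mp this.symm).resolve_left h9
  by_cases hSy0 : S y = 0
  · right
    rw [hSy0, map_zero, smul_zero, sub_zero, zero_add] at h4
    exact (smul_eq_zero.mp h4).resolve_right hy0
  · left
    have h5 := h.form_skew hk (h.deg hy)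
    have h6 := h.form_skew hk hy
    have h6' : T.tr Z (G.c M ^ k * (y * G.weil Z (S y))) = 0 := by
      rw [← G.weil_tr, G.weil_mul, G.weil_mul, G.weil_sq (h.deg hy),
        G.weil_alg (G.c_pow_mem M k), T.even_comm (G.weil_deg hy)]
      exact h6
    have h7 := G.hodge_riemann M hik (S y) (h.deg hy) hSy0 hSy1
    have h8 : T.tr Z (G.c M ^ k * (S y * G.weil Z (S y))) ≠ 0 := by
      intro h8
      rw [h8, mul_zero] at h7
      exact lt_irrefl _ h7
    have h9 : S (S y) = (s * a) • S y - c • y := by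
      rw [← sub_eq_zero, ← h4]
      abel
    rw [h9, sub_mul, mul_sub, map_sub, smul_mul_assoc, mul_smul_comm, map_smul, smul_mul_assoc,
      mul_smul_comm, map_smul, h6', smul_zero, sub_zero, smul_eq_mul] at h5
    have h10 := (mul_eq_zero.mp h5).resolve_right h8
    have h11 : s ≠ 0 := pow_ne_zero _ (by norm_num)
    exact (mul_eq_zero.mp h10).resolve_left h11

end Skew

end Pool.VHC
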